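import Pool.Agent.AG.Red.Basic
import Pool.Agent.AG.GeoFlip
import Pool.Agent.AG.GeoLin

/-!
# Project AG, block RED: the geometric facts which are used (theorems of GEO-B, helper23)
-/

namespace AG

open Finset

variable {I : Type} [DecidableEq I]

namespace Obj

/-- linear fans -/
theorem Geo.linear {S : Obj I} {pt : Sd I → Pt} (hg : S.Geo pt) : S.Linear :=
  AG.Geo.linear hg

/-- diagonals in U can be flipped -/
theorem IsU.flippable {S : Obj I} {pt : Sd I → Pt} (hg : S.Geo pt) {a : Sd I}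
    (hU : S.IsU pt a) : S.Flippable a := AG.Geo.flippable hg hU.glued

theorem Geo.flip {S : Obj I} {pt : Sd I → Pt} (hg : S.Geo pt) {a : Sd I}
    (hU : S.IsU pt a) (h : S.Flippable a) : (S.flip a h).Geo (flipPt pt a (S.g a)) :=
  AG.Geo.geo_flip hg hU h

/-- the flip does not change the union of the two triangles -/
theorem Geo.flip_tri {S : Obj I} {pt : Sd I → Pt} (hg : S.Geo pt) {a : Sd I}
    (hU : S.IsU pt a) :
    tri (flipPt pt a (S.g a)) a.1 ∪ tri (flipPt pt a (S.g a)) (S.g a).1 =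
      tri pt a.1 ∪ tri pt (S.g a).1 := AG.Geo.tri_flip hg hU

/-- seeing lemma, case U: the neighbour across `a` is dominated -/
theorem Geo.see_U {S : Obj I} {pt : Sd I → Pt} (hg : S.Geo pt) {R : Set Pt} {C : Finset (Sd I)}
    {a : Sd I} (hU : S.IsU pt a) (h1 : tri pt a.1 ⊆ R) (h2 : tri pt (S.g a).1 ⊆ R)
    (hC : ∃ i, S.Hit C ((S.g a).1, i)) : Cov pt R C a.1 := by
  obtain ⟨i, hi⟩ := hC
  exact AG.Geo.cov_U hg hU h1 h2 (c := ((S.g a).1, i)) rfl hi

/-- seeing lemma, case pair: both neighbours are dominated -/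
theorem Geo.see_pair {S : Obj I} {pt : Sd I → Pt} (hg : S.Geo pt) {R : Set Pt}
    {C : Finset (Sd I)} {c : Sd I} (hp : S.PairAt pt c) (h0 : tri pt c.1 ⊆ R)
    (h1 : tri pt (S.g c).1 ⊆ R) (h2 : tri pt (S.g (unrot c)).1 ⊆ R)
    (hC1 : ∃ i, S.Hit C ((S.g c).1, i)) (hC2 : ∃ i, S.Hit C ((S.g (unrot c)).1, i)) :
    Cov pt R C c.1 := by
  obtain ⟨i, hi⟩ := hC1
  obtain ⟨j, hj⟩ := hC2
  exact AG.Geo.cov_pair hg hp h0 h1 h2 (d1 := ((S.g c).1, i)) (d2 := ((S.g (unrot c)).1, j)) rfl hi rfl hj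

end Obj

end AG
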