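import Pool.Agent.AG.Red.RemoveA

/-!
# Project AG, block RED: removing triangles from a bridgeless connected object
-/

namespace AG

open Finset

variable {I : Type} [DecidableEq I]

namespace Obj

/-- a blade: the boundary of its triangle -/
theorem Blade.bd {S : Obj I} {c : Sd I} (hB : S.Blade c) :
    S.bd {c.1} = {c, unrot c} := by
  ext a
  rw [mem_bd, mem_insert, mem_singleton, mem_singleton, mem_singleton]
  constructor
  · rintro ⟨h1, h2, -⟩
    rcases eq_of_fst_eq h2 with h | h | h
    · exact Or.inl h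
    · rw [h] at h1
      exact absurd hB.2.2.1 h1
    · exact Or.inr h
  · rintro (h | h)
    · rw [h]
      exact ⟨hB.1, rfl, S.ne _ hB.1⟩
    · rw [h]
      exact ⟨hB.2.1, rfl, S.ne _ hB.2.1⟩

theorem Blade.conn_remove {S : Obj I} (hc : S.Conn) (hb : S.Bridgeless) {c : Sd I}
    (hB : S.Blade c) : (S.keep (S.F \ {c.1})).Conn := by
  refine Conn.remove hc hb (singleton_subset_iff.2 hB.memF) ?_ ?_
  · intro h
    have h1 : (S.g c).1 ∈ S.F := g_memF hB.1
    rw [← h, mem_singleton] at h1
    exact S.ne _ hB.1 h1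
  · rw [hB.bd]
    exact card_le_two.trans (by omega)

theorem Blade.N2_remove {S : Obj I} {c : Sd I} (hB : S.Blade c) (k : ℕ) :
    (S.keep (S.F \ {c.1})).N2 k = S.N2 k := by
  have h := Obj.N2_remove_set S (singleton_subset_iff.2 hB.memF) k
  have h1 : S.vis.filter (fun a => a.1 ∈ ({c.1} : Finset I)) = {rot c} := by
    ext b
    rw [mem_filter, mem_vis, mem_singleton, mem_singleton]
    constructor
    · rintro ⟨⟨-, h2⟩, h3⟩
      rcases eq_of_fst_eq h3 with h4 | h4 | h4
      · rw [h4] at h2
        exact absurd h2 hB.1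
      · exact h4
      · rw [h4] at h2
        exact absurd h2 hB.2.1
    · rintro rfl
      exact ⟨⟨hB.memF, hB.2.2.1⟩, rfl⟩
  have h2 : S.E.filter (fun a => a.1 ∈ ({c.1} : Finset I)) = ∅ := by
    rw [filter_eq_empty_iff]
    intro b hbE hb1
    rw [mem_singleton] at hb1
    rcases eq_of_fst_eq hb1 with h4 | h4 | h4
    · rw [h4] at hbE
      exact hB.1 (S.earFree _ hbE)
    · rw [h4] at hbE
      exact hB.2.2.2 hbE
    · rw [h4] at hbE
      exact hB.2.1 (S.earFree _ hbE)
  rw [h1, h2, hB.bd, card_singleton, card_singleton, card_empty,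
    card_pair (unrot_ne c).symm] at h
  omega

/-- a triangle `s` which is not a face and is glued to a removed triangle is noncore in the rest -/
theorem noncore_of_not_face {S : Obj I} {a : Sd I} (ha : S.g a ≠ a)
    (hf : ¬ S.Face (S.g a).1) : (S.keep (S.F \ {a.1})).Noncore (S.g a).1 := by
  have hsF : (S.g a).1 ∈ S.F := g_memF ha
  have hex : ∃ i, S.g ((S.g a).1, i) = ((S.g a).1, i) := by
    by_contra hcon
    exact hf ⟨hsF, fun i hi => hcon ⟨i, hi⟩⟩
  obtain ⟨i0, hi0⟩ := hex
  have hKF : (S.keep (S.F \ {a.1})).F = S.F \ {a.1} := keep_F S sdiff_subset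
  have hsK : (S.g a).1 ∈ (S.keep (S.F \ {a.1})).F := by
    rw [hKF, mem_sdiff, mem_singleton]
    exact ⟨hsF, S.ne _ ha⟩
  -- a side of `s` which is glued in the rest
  have key : ∀ b : Sd I, b.1 = (S.g a).1 → (S.keep (S.F \ {a.1})).g b ≠ b →
      b ≠ ((S.g a).1, i0) ∧ b ≠ S.g a := by
    intro b _ hb
    obtain ⟨-, h2⟩ := (keep_le S (S.F \ {a.1})).glued hb
    constructor
    · rintro rfl
      exact h2 hi0
    · rintro rfl
      apply hb
      rw [keep_g, if_neg]
      rintro ⟨-, h3⟩
      rw [S.invol, mem_sdiff, mem_singleton] at h3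
      exact h3.2 rfl
  have huniq : ∀ b b' : Sd I, b.1 = (S.g a).1 → b'.1 = (S.g a).1 →
      (S.keep (S.F \ {a.1})).g b ≠ b → (S.keep (S.F \ {a.1})).g b' ≠ b' → b = b' := by
    intro b b' hb hb' h1 h1'
    obtain ⟨k1, k2⟩ := key b hb h1
    obtain ⟨k1', k2'⟩ := key b' hb' h1'
    have hne : S.g a ≠ ((S.g a).1, i0) := by
      intro h
      rw [← h, S.invol] at hi0
      exact ha hi0.symm
    obtain ⟨u, hu⟩ : ∃ u : Sd I, u = ((S.g a).1, i0) := ⟨_, rfl⟩
    rw [← hu] at k1 k1' hne
    have hu1 : u.1 = (S.g a).1 := by rw [hu]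
    rcases eq_of_fst_eq (hb.trans hu1.symm) with e | e | e
    · exact absurd e k1
    · rcases eq_of_fst_eq (hb'.trans hu1.symm) with e' | e' | e'
      · exact absurd e' k1'
      · rw [e, e']
      · exfalso
        rcases eq_of_fst_eq (hu1.symm : (S.g a).1 = u.1) with e2 | e2 | e2
        · exact hne e2
        · exact k2 (e.trans e2.symm)
        · exact k2' (e'.trans e2.symm)
    · rcases eq_of_fst_eq (hb'.trans hu1.symm) with e' | e' | e'
      · exact absurd e' k1'
      · exfalso
        rcases eq_of_fst_eq (hu1.symm : (S.g a).1 = u.1) with e2 | e2 | e2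
        · exact hne e2
        · exact k2' (e'.trans e2.symm)
        · exact k2 (e.trans e2.symm)
      · rw [e, e']
  refine ⟨hsK, fun i hi => ⟨{(S.g a).1}, singleton_subset_iff.2 hsK, ?_⟩⟩
  ext b
  rw [mem_bd, mem_singleton, mem_singleton, mem_singleton]
  constructor
  · rintro ⟨h1, h2, -⟩
    exact huniq _ _ h2 rfl h1 hi
  · rintro rfl
    exact ⟨hi, rfl, (S.keep (S.F \ {a.1})).ne _ hi⟩

/-- the three sides of a blade triangle, seen from one of its glued sides -/
private theorem blade_sides {S : Obj I} {a : Sd I} (hB : S.Blade a ∨ S.Blade (rot a)) :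
    ∃ o β : Sd I, o.1 = a.1 ∧ β.1 = a.1 ∧ S.g o ≠ o ∧ o ≠ a ∧ S.g β = β ∧ β ∉ S.E ∧
      ∀ b : Sd I, b.1 = a.1 → b = a ∨ b = o ∨ b = β := by
  rcases hB with h | h
  · refine ⟨unrot a, rot a, rfl, rfl, h.2.1, unrot_ne a, h.2.2.1, h.2.2.2, fun b hb => ?_⟩
    rcases eq_of_fst_eq hb with e | e | e
    · exact Or.inl e
    · exact Or.inr (Or.inr e)
    · exact Or.inr (Or.inl e)
  · refine ⟨rot a, unrot a, rfl, rfl, h.1, rot_ne a, ?_, ?_, fun b hb => eq_of_fst_eq hb⟩
    · rw [← rot_rot]
      exact h.2.2.1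
    · rw [← rot_rot]
      exact h.2.2.2

private theorem face_glued {S : Obj I} {a : Sd I} (hA : S.Active a) {b : Sd I}
    (hb : b.1 = (S.g a).1) : S.g b ≠ b := by
  have h1 := hA.2.2 b.2
  have h2 : ((S.g a).1, b.2) = b := by rw [← hb]
  rwa [h2] at h1

private theorem bd_two_subset {S : Obj I} {a o β : Sd I}
    (hβg : S.g β = β) (hall : ∀ b : Sd I, b.1 = a.1 → b = a ∨ b = o ∨ b = β) :
    S.bd {a.1, (S.g a).1} ⊆ {o, rot (S.g a), unrot (S.g a)} := by
  intro b hb
  rw [mem_bd, mem_insert, mem_singleton, mem_insert, mem_singleton] at hb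
  obtain ⟨h1, h2, h3⟩ := hb
  rw [mem_insert, mem_insert, mem_singleton]
  rcases h2 with h2 | h2
  · rcases hall b h2 with e | e | e
    · rw [e] at h3
      exact absurd (Or.inr rfl) h3
    · exact Or.inl e
    · rw [e] at h1
      exact absurd hβg h1
  · rcases eq_of_fst_eq h2 with e | e | e
    · rw [e, S.invol] at h3
      exact absurd (Or.inl rfl) h3
    · exact Or.inr (Or.inl e)
    · exact Or.inr (Or.inr e)

/-- a side of the face different from `g a` whose partner is in the blade triangle -/
private theorem partner_eq {S : Obj I} {a o β b : Sd I} (hA : S.Active a)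
    (hβg : S.g β = β) (hall : ∀ b : Sd I, b.1 = a.1 → b = a ∨ b = o ∨ b = β)
    (hb : b.1 = (S.g a).1) (hba : b ≠ S.g a) (hp : (S.g b).1 = a.1) : S.g b = o := by
  rcases hall _ hp with e | e | e
  · exfalso
    apply hba
    rw [← S.invol b, e]
  · exact e
  · exfalso
    have h1 := face_glued hA hb
    apply g_ne_iff.2 h1
    rw [e]
    exact hβg

private theorem two_ne_F {S : Obj I} {a o β : Sd I} (hA : S.Active a)
    (hβg : S.g β = β) (hall : ∀ b : Sd I, b.1 = a.1 → b = a ∨ b = o ∨ b = β) :
    ({a.1, (S.g a).1} : Finset I) ≠ S.F := by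
  intro h
  have key : ∀ b : Sd I, b.1 = (S.g a).1 → b ≠ S.g a → S.g b = o := by
    intro b hb hba
    have h1 := face_glued hA hb
    have h2 : (S.g b).1 ∈ S.F := g_memF h1
    rw [← h, mem_insert, mem_singleton] at h2
    rcases h2 with h2 | h2
    · exact partner_eq hA hβg hall hb hba h2
    · exact absurd (h2.trans hb.symm) (S.ne _ h1)
  have h1 := key (rot (S.g a)) rfl (rot_ne _)
  have h2 := key (unrot (S.g a)) rfl (unrot_ne _)
  exact unrot_ne_rot (S.g a) (S.g_injective (h2.trans h1.symm))

private theorem two_subset_F {S : Obj I} {a : Sd I} (hA : S.Active a) :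
    ({a.1, (S.g a).1} : Finset I) ⊆ S.F := by
  intro t ht
  rw [mem_insert, mem_singleton] at ht
  rcases ht with rfl | rfl
  · exact S.memF _ hA.1
  · exact hA.2.1

/-- blade `a.1` (apex `a` or `rot a`) and face `s = (S.g a).1`: the boundary of `{t, s}` has three
elements, so the rest is connected, `N` is unchanged -/
theorem conn_remove_two {S : Obj I} (hc : S.Conn) (hb : S.Bridgeless) {a : Sd I}
    (hB : S.Blade a ∨ S.Blade (rot a)) (hA : S.Active a) :
    (S.keep (S.F \ {a.1, (S.g a).1})).Conn := by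
  obtain ⟨o, β, -, -, -, -, hβg, -, hall⟩ := blade_sides hB
  refine Conn.remove hc hb (two_subset_F hA) (two_ne_F hA hβg hall) ?_
  exact (card_le_card (bd_two_subset hβg hall)).trans card_le_three

theorem N2_remove_two {S : Obj I} (hc : S.Conn) (hb : S.Bridgeless) {a : Sd I}
    (hB : S.Blade a ∨ S.Blade (rot a)) (hA : S.Active a) (k : ℕ) :
    (S.keep (S.F \ {a.1, (S.g a).1})).N2 k = S.N2 k := by
  obtain ⟨o, β, ho1, hβ1, hog, hoa, hβg, hβE, hall⟩ := blade_sides hB
  have hne : a.1 ≠ (S.g a).1 := fun h => S.ne _ hA.1 h.symm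
  have h := Obj.N2_remove_set S (two_subset_F hA) k
  have hvis : S.vis.filter (fun b => b.1 ∈ ({a.1, (S.g a).1} : Finset I)) = {β} := by
    ext b
    rw [mem_filter, mem_vis, mem_insert, mem_singleton, mem_singleton]
    constructor
    · rintro ⟨⟨-, h2⟩, h3 | h3⟩
      · rcases hall b h3 with e | e | e
        · rw [e] at h2
          exact absurd h2 hA.1
        · rw [e] at h2
          exact absurd h2 hog
        · exact e
      · exact absurd h2 (face_glued hA h3)
    · rintro rfl
      refine ⟨⟨?_, hβg⟩, Or.inl hβ1⟩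
      rw [hβ1]
      exact S.memF _ hA.1
  have hE : S.E.filter (fun b => b.1 ∈ ({a.1, (S.g a).1} : Finset I)) = ∅ := by
    rw [filter_eq_empty_iff]
    intro b hbE hb1
    rw [mem_insert, mem_singleton] at hb1
    have h2 := S.earFree _ hbE
    rcases hb1 with h3 | h3
    · rcases hall b h3 with e | e | e
      · rw [e] at h2
        exact hA.1 h2
      · rw [e] at h2
        exact hog h2
      · rw [e] at hbE
        exact hβE hbE
    · exact face_glued hA h3 h2
  have hM2 : 2 ≤ (S.bd {a.1, (S.g a).1}).card := by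
    refine hb.two_le (two_subset_F hA) ?_
    exact hc.2 _ (two_subset_F hA) ⟨a.1, mem_insert_self _ _⟩ (two_ne_F hA hβg hall)
  have hsub := bd_two_subset (S := S) hβg hall
  -- the other glued side of the blade leaves the pair
  have ho : (S.g o).1 ≠ (S.g a).1 := by
    intro hcon
    have hgo : S.g o ≠ S.g a := fun e => hoa (S.g_injective e)
    have hlt : S.bd {a.1, (S.g a).1} ⊆
        ({o, rot (S.g a), unrot (S.g a)} : Finset (Sd I)) \ {o, S.g o} := by
      intro b hb'
      rw [mem_sdiff]
      refine ⟨hsub hb', ?_⟩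
      rw [mem_insert, mem_singleton]
      rw [mem_bd, mem_insert, mem_singleton, mem_insert, mem_singleton] at hb'
      rintro (e | e)
      · rw [e] at hb'
        exact hb'.2.2 (Or.inr hcon)
      · rw [e, S.invol] at hb'
        exact hb'.2.2 (Or.inl ho1)
    have h1 := card_le_card hlt
    have h2 : ({o, rot (S.g a), unrot (S.g a)} : Finset (Sd I)) \ {o, S.g o} ⊆
        ({rot (S.g a), unrot (S.g a)} : Finset (Sd I)).erase (S.g o) := by
      intro b hb'
      rw [mem_sdiff, mem_insert, mem_insert, mem_singleton, mem_insert, mem_singleton] at hb'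
      rw [mem_erase, mem_insert, mem_singleton]
      obtain ⟨h3, h4⟩ := hb'
      refine ⟨fun e => h4 (Or.inr e), ?_⟩
      rcases h3 with e | e
      · exact absurd (Or.inl e) h4
      · exact e
    have h3 := card_le_card h2
    have h4 : S.g o ∈ ({rot (S.g a), unrot (S.g a)} : Finset (Sd I)) := by
      rw [mem_insert, mem_singleton]
      rcases eq_of_fst_eq hcon with e | e | e
      · exact absurd e hgo
      · exact Or.inl e
      · exact Or.inr e
    rw [card_erase_of_mem h4, card_pair (unrot_ne_rot (S.g a)).symm] at h3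
    omega
  have hbd : S.bd {a.1, (S.g a).1} = {o, rot (S.g a), unrot (S.g a)} := by
    refine subset_antisymm hsub ?_
    have hface : ∀ b : Sd I, b.1 = (S.g a).1 → b ≠ S.g a → b ∈ S.bd {a.1, (S.g a).1} := by
      intro b hb1 hba
      have h1 := face_glued hA hb1
      rw [mem_bd, mem_insert, mem_singleton, mem_insert, mem_singleton]
      refine ⟨h1, Or.inr hb1, ?_⟩
      rintro (e | e)
      · have h2 := partner_eq hA hβg hall hb1 hba e
        apply ho
        rw [← h2, S.invol]
        exact hb1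
      · exact S.ne _ h1 (e.trans hb1.symm)
    intro b hb'
    rw [mem_insert, mem_insert, mem_singleton] at hb'
    rcases hb' with e | e | e
    · rw [e, mem_bd, mem_insert, mem_singleton, mem_insert, mem_singleton]
      refine ⟨hog, Or.inl ho1, ?_⟩
      rintro (e' | e')
      · exact S.ne _ hog (e'.trans ho1.symm)
      · exact ho e'
    · rw [e]
      exact hface _ rfl (rot_ne _)
    · rw [e]
      exact hface _ rfl (unrot_ne _)
  have hcard3 : ({o, rot (S.g a), unrot (S.g a)} : Finset (Sd I)).card = 3 := by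
    rw [card_eq_three]
    refine ⟨o, rot (S.g a), unrot (S.g a), ?_, ?_, (unrot_ne_rot (S.g a)).symm, rfl⟩
    · intro e
      apply hne
      rw [← ho1, e]
      rfl
    · intro e
      apply hne
      rw [← ho1, e]
      rfl
  rw [hvis, hE, hbd, hcard3, card_singleton, card_empty, card_pair hne] at h
  omega

end Obj

end AG
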