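import Pool.Agent.AG.Red.Single
import Pool.Agent.AG.Red.Remove
import Pool.Agent.AG.Red.GeoStub

/-!
# Project AG, block RED: 2.3 (a forced visit) and 2.4 (N mod 3)
-/

namespace AG

open Finset

variable {I : Type} [DecidableEq I]

namespace Obj

/-- a bridgeless connected object with at least two triangles: every corner is equivalent to the
start of a glued side -/
private theorem exists_glued_eqv {S : Obj I} (hc : S.Conn) (hb : S.Bridgeless)
    (h2 : 2 ≤ S.F.card) {w : Sd I} (hw : w.1 ∈ S.F) : ∃ a, S.g a ≠ a ∧ S.Eqv a w := by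
  by_cases h : S.g w = w
  · have h1 := (Bridgeless.two_glued hc hb h2 hw h).2
    refine ⟨S.g (unrot w), g_ne_iff.2 h1, ?_⟩
    have h3 := Eqv.of_glued' h1
    rw [rot_unrot] at h3
    exact h3.symm
  · exact ⟨w, h, Eqv.refl _ _⟩

private theorem even_glued (S : Obj I) : S.glued.card % 2 = 0 := by
  have h : ∑ _a ∈ S.glued, (1 : ZMod 2) = 0 := by
    refine Finset.sum_involution (fun a _ => S.g a) ?_ ?_ ?_ ?_
    · intro a ha
      decide
    · intro a ha _
      exact mem_glued.1 ha
    · intro a ha
      exact g_mem_glued.2 ha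
    · intro a ha
      exact S.invol a
  rw [Finset.sum_const, nsmul_eq_mul, mul_one, ZMod.natCast_eq_zero_iff] at h
  omega

/-- solving the cut object solves the object -/
private theorem sol_cut {S : Obj I} {pt : Sd I → Pt} {R : Set Pt} {a : Sd I}
    {W W' C : Finset (Sd I)} (hs : Sol (S.cut a) pt R W' C) (hW : ∀ w ∈ W, S.Hit C w) :
    Sol S pt R W C := by
  refine Sol.transfer (cut_le S a) hs hW ?_ ?_ ?_
  · intro b hb
    exact (hs.ear b hb).imp (Hit.mono (cut_le S a)) (Hit.mono (cut_le S a))
  · intro t ht ht'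
    exact absurd ht ht'
  · intro t ht ht'
    exact absurd ht ht'

/-- 2.3: bridgeless, at least two triangles, at least one forced visit -/
theorem P_forced {S : Obj I} {pt : Sd I → Pt} {R : Set Pt} (hg : S.Geo pt) (hc : S.Conn)
    (hb : S.Bridgeless) (h2 : 2 ≤ S.F.card) (hR : ∀ t ∈ S.F, tri pt t ⊆ R)
    (ih : IH I R S.glued.card) {W : Finset (Sd I)} (hW : W ⊆ S.sides) (hr : S.Reduced W)
    (hne : W.Nonempty) : P S pt R W := by
  obtain ⟨w, hw⟩ := hne
  obtain ⟨a, ha, haw⟩ := exists_glued_eqv hc hb h2 (mem_sides.1 (hW hw))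
  have hl := hg.linear
  have hle := cut_le S a
  have haF : a.1 ∈ S.F := S.memF a ha
  have hgF : (S.g a).1 ∈ S.F := g_memF ha
  have hlt : (S.cut a).glued.card < S.glued.card := by
    have := card_glued_cut S ha
    omega
  have hc1 : (S.cut a).Conn := hc.cut (hb a)
  have hsF : (S.cut a).sides = S.sides := rfl
  have hn1 := not_eqv_cut hl ha
  have hn2 := not_eqv_cut' hl ha
  have he1 : S.Eqv a (rot (S.g a)) := Eqv.of_glued ha
  have he2 : S.Eqv (S.g a) (rot a) := (Eqv.of_glued' ha).symm
  have hma : a ∈ S.sides := mem_sides.2 haF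
  have hmra : rot a ∈ S.sides := mem_sides.2 haF
  have hmg : S.g a ∈ S.sides := mem_sides.2 hgF
  have hmrg : rot (S.g a) ∈ S.sides := mem_sides.2 hgF
  by_cases hw2 : ∃ w2 ∈ W, S.Eqv w2 (rot a)
  · obtain ⟨w2, hw2, hw2a⟩ := hw2
    have hpt : pt a ≠ pt (rot a) := (hg.ccw_at haF).ne
    have hww : w2 ≠ w := by
      rintro rfl
      exact hpt (hg.pt_eq (haw.trans hw2a))
    let W1 : Finset (Sd I) :=
      insert a (insert (rot (S.g a)) (insert (S.g a) (insert (rot a) ((W.erase w).erase w2))))
    have hW1 : W1 ⊆ (S.cut a).sides := by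
      intro b hb'
      rw [hsF]
      simp only [W1, mem_insert, mem_erase] at hb'
      rcases hb' with h | h | h | h | h
      · rw [h]; exact hma
      · rw [h]; exact hmrg
      · rw [h]; exact hmg
      · rw [h]; exact hmra
      · exact hW h.2.2
    have hcard : W1.card ≤ W.card + 2 := by
      have h1 : ((W.erase w).erase w2).card + 2 = W.card := by
        rw [card_erase_of_mem (mem_erase.2 ⟨hww, hw2⟩), card_erase_of_mem hw]
        have h3 : ({w2, w} : Finset (Sd I)) ⊆ W := by
          intro b hb'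
          rw [mem_insert, mem_singleton] at hb'
          rcases hb' with h | h
          · rw [h]; exact hw2
          · rw [h]; exact hw
        have h4 := card_le_card h3
        rw [card_pair hww] at h4
        omega
      have h5 : W1.card ≤ ((W.erase w).erase w2).card + 1 + 1 + 1 + 1 :=
        (card_insert_le _ _).trans (Nat.succ_le_succ ((card_insert_le _ _).trans
          (Nat.succ_le_succ ((card_insert_le _ _).trans (Nat.succ_le_succ
            (card_insert_le _ _))))))
      omega
    obtain ⟨C, hC, hCc⟩ := ih (S.cut a) pt (hg.sub hle) hc1 hR hlt W1 hW1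
    have hm1 : a ∈ W1 := by simp [W1]
    have hm2 : rot (S.g a) ∈ W1 := by simp [W1]
    have hm3 : S.g a ∈ W1 := by simp [W1]
    have hm4 : rot a ∈ W1 := by simp [W1]
    have hforced : ∀ w' ∈ W, S.Hit C w' := by
      intro w' hw'
      by_cases h1 : w' = w
      · rw [h1]
        exact ((hC.forced a hm1).mono hle).eqv haw
      · by_cases h3 : w' = w2
        · rw [h3]
          exact ((hC.forced _ hm4).mono hle).eqv hw2a.symm
        · refine (hC.forced w' ?_).mono hle
          simp only [W1, mem_insert, mem_erase]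
          exact Or.inr (Or.inr (Or.inr (Or.inr ⟨h3, h1, hw'⟩)))
    obtain ⟨d, hd, d', hd', hdd, hde, hda⟩ := exists_dup hle hC hm1 hm2 hn1 he1
    obtain ⟨e, he, e', he', hee, hee', hea⟩ := exists_dup hle hC hm3 hm4 hn2 he2
    have hS0 : Sol S pt R W C := sol_cut hC hforced
    have hS1 : Sol S pt R W (C.erase d) := hS0.erase hg hd' hdd hde
    have hde1 : ∀ x, S.Eqv x (S.g a) → x ≠ d := by
      rintro x hx rfl
      apply hpt
      rw [← hg.pt_eq hda, hg.pt_eq hx, hg.pt_eq he2]
    have hed : e ∈ C.erase d := mem_erase.2 ⟨hde1 e hea, he⟩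
    have hed' : e' ∈ C.erase d := mem_erase.2 ⟨hde1 e' (hee'.symm.trans hea), he'⟩
    have hS2 : Sol S pt R W ((C.erase d).erase e) := hS1.erase hg hed' hee hee'
    refine ⟨_, hS2, ?_⟩
    have k1 : ((C.erase d).erase e).card + 1 = (C.erase d).card := card_erase_add_one hed
    have k2 : (C.erase d).card + 1 = C.card := card_erase_add_one hd
    rw [N2_cut S ha] at hCc
    simp only [N2] at hCc ⊢
    omega
  · let W1 : Finset (Sd I) := insert a (insert (rot (S.g a)) (W.erase w))
    have hW1 : W1 ⊆ (S.cut a).sides := by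
      intro b hb'
      rw [hsF]
      simp only [W1, mem_insert, mem_erase] at hb'
      rcases hb' with h | h | h
      · rw [h]; exact hma
      · rw [h]; exact hmrg
      · exact hW h.2
    have hcard : W1.card ≤ W.card + 1 := by
      have h1 : (W.erase w).card + 1 = W.card := card_erase_add_one hw
      have h5 : W1.card ≤ (W.erase w).card + 1 + 1 :=
        (card_insert_le _ _).trans (Nat.succ_le_succ (card_insert_le _ _))
      omega
    obtain ⟨C, hC, hCc⟩ := ih (S.cut a) pt (hg.sub hle) hc1 hR hlt W1 hW1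
    have hm1 : a ∈ W1 := by simp [W1]
    have hm2 : rot (S.g a) ∈ W1 := by simp [W1]
    have hforced : ∀ w' ∈ W, S.Hit C w' := by
      intro w' hw'
      by_cases h1 : w' = w
      · rw [h1]
        exact ((hC.forced a hm1).mono hle).eqv haw
      · refine (hC.forced w' ?_).mono hle
        simp only [W1, mem_insert, mem_erase]
        exact Or.inr (Or.inr ⟨h1, hw'⟩)
    obtain ⟨d, hd, d', hd', hdd, hde, hda⟩ := exists_dup hle hC hm1 hm2 hn1 he1
    have hS0 : Sol S pt R W C := sol_cut hC hforced
    have hS1 : Sol S pt R W (C.erase d) := hS0.erase hg hd' hdd hde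
    refine ⟨_, hS1, ?_⟩
    have k2 : (C.erase d).card + 1 = C.card := card_erase_add_one hd
    rw [N2_cut S ha] at hCc
    simp only [N2] at hCc ⊢
    omega

/-- 2.4: bridgeless, at least two triangles, `N` not `2` mod `3` -/
theorem P_mod {S : Obj I} {pt : Sd I → Pt} {R : Set Pt} (hg : S.Geo pt) (hc : S.Conn)
    (hb : S.Bridgeless) (h2 : 2 ≤ S.F.card) (hR : ∀ t ∈ S.F, tri pt t ⊆ R)
    (ih : IH I R S.glued.card) (hN : S.N2 0 % 6 ≠ 4) : P S pt R ∅ := by
  obtain ⟨t, ht⟩ := hc.1
  obtain ⟨a, ha, -⟩ := exists_glued_eqv hc hb h2 (w := (t, 0)) ht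
  have hlt : (S.cut a).glued.card < S.glued.card := by
    have := card_glued_cut S ha
    omega
  have hc1 : (S.cut a).Conn := hc.cut (hb a)
  obtain ⟨C, hC, hCc⟩ := ih (S.cut a) pt (hg.sub (cut_le S a)) hc1 hR hlt ∅ (empty_subset _)
  refine ⟨C, sol_cut hC (fun w hw => absurd hw (notMem_empty w)), ?_⟩
  rw [N2_cut S ha] at hCc
  have h3 := card_vis_add_card_glued S
  have h4 := even_glued S
  simp only [N2, card_empty] at hCc hN ⊢
  omega

end Obj

end AG
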