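import Pool.Agent.AG.Red.Bridge
import Pool.Agent.AG.Red.Forced

/-!
# Project AG, block RED: minimal counterexamples, first properties; P holds if there is none
-/

namespace AG

open Finset

variable {I : Type} [DecidableEq I]

namespace Obj

/-- the number of glued sides is even -/
theorem card_glued_even (S : Obj I) : S.glued.card % 2 = 0 := by
  have h : (∑ _a ∈ S.glued, (1 : ZMod 2)) = 0 := by
    refine Finset.sum_involution (fun a _ => S.g a) ?_ ?_ ?_ ?_
    · intro a _; decide
    · intro a ha _
      exact mem_glued.1 ha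
    · intro a ha
      exact g_mem_glued.2 ha
    · intro a _
      exact S.invol a
  rw [Finset.sum_const, nsmul_eq_mul, mul_one] at h
  exact Nat.even_iff.1 ((ZMod.natCast_eq_zero_iff_even).1 h)

/-- `N2` is even -/
theorem N2_even (S : Obj I) (k : ℕ) : S.N2 k % 2 = 0 := by
  have h1 := card_glued_even S
  have h2 := card_vis_add_card_glued S
  unfold N2
  omega

theorem Cex.two_le {S : Obj I} {pt : Sd I → Pt} {R : Set Pt} (hC : Cex S pt R) :
    2 ≤ S.F.card := by
  by_contra h
  have h1 : S.F.card = 1 := by
    have := hC.conn.1.card_pos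
    omega
  obtain ⟨t, ht⟩ := card_eq_one.1 h1
  exact hC.bad (P_single hC.geo hC.sub ht (empty_subset _))

theorem Cex.bridgeless {S : Obj I} {pt : Sd I → Pt} {R : Set Pt} (hC : Cex S pt R) :
    S.Bridgeless := fun _ ha =>
  hC.bad (P_bridge hC.geo hC.conn hC.sub hC.ih ha (empty_subset _)
    (fun w hw => absurd hw (notMem_empty w)))

theorem Cex.N2_mod {S : Obj I} {pt : Sd I → Pt} {R : Set Pt} (hC : Cex S pt R) :
    S.N2 0 % 6 = 4 := by
  by_contra h
  exact hC.bad (P_mod hC.geo hC.conn hC.bridgeless hC.two_le hC.sub hC.ih h)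

/-- if there is no minimal counterexample (with names in `I`, inside `R`), then P holds -/
theorem P_all {R : Set Pt} (hno : ∀ (S : Obj I) (pt : Sd I → Pt), ¬ Cex S pt R)
    {S : Obj I} {pt : Sd I → Pt} (hg : S.Geo pt) (hc : S.Conn)
    (hR : ∀ t ∈ S.F, tri pt t ⊆ R) {W : Finset (Sd I)} (hW : W ⊆ S.sides) : P S pt R W := by
  have key : ∀ n : ℕ, IH I R n := by
    intro n
    induction n with
    | zero => intro S pt _ _ _ hlt; exact absurd hlt (Nat.not_lt_zero _)
    | succ n ihn =>
      intro S pt hg hc hR hlt W hW
      rcases Nat.lt_succ_iff_lt_or_eq.1 hlt with h1 | h1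
      · exact ihn S pt hg hc hR h1 W hW
      have ih : IH I R S.glued.card := by rw [h1]; exact ihn
      refine P_of_reduced (fun W hW hr => ?_) hW
      by_cases hb : S.Bridgeless
      · by_cases h2 : 2 ≤ S.F.card
        · rcases W.eq_empty_or_nonempty with hW0 | hW0
          · subst hW0
            by_contra hbad
            exact hno S pt ⟨hg, hc, hR, ih, hbad⟩
          · exact P_forced hg hc hb h2 hR ih hW hr hW0
        · have h3 : S.F.card = 1 := by
            have := hc.1.card_pos
            omega
          obtain ⟨t, ht⟩ := card_eq_one.1 h3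
          exact P_single hg hR ht hW
      · unfold Bridgeless at hb
        push Not at hb
        obtain ⟨a, ha⟩ := hb
        exact P_bridge hg hc hR ih ha hW hr
  exact key (S.glued.card + 1) S pt hg hc hR (Nat.lt_succ_self _) W hW

end Obj

end AG
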