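import Pool.Agent.AG.Red.Main

/-!
# Project AG, block RED: 2.5, ear ends in a minimal counterexample
-/

namespace AG

open Finset

variable {I : Type} [DecidableEq I]

namespace Obj

/-- 2.5, first part: the start of an ear and the end of an ear are never at the same visit -/
theorem Cex.not_two_ears {S : Obj I} {pt : Sd I → Pt} {R : Set Pt} (hC : Cex S pt R)
    {a b : Sd I} (ha : a ∈ S.E) (hb : b ∈ S.E) : ¬ S.Eqv a (rot b) := by
  intro h
  have hl := hC.geo.linear
  have hbr := hC.bridgeless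
  have hab : a ≠ b := by
    rintro rfl
    have h1 := hC.geo.ccw_at (S.earF a ha)
    rw [hC.geo.pt_eq h] at h1
    exact Ccw.ne h1 rfl
  have hau := S.earFree a ha
  have hd : S.g (unrot a) ≠ unrot a :=
    (Bridgeless.two_glued hC.conn hbr hC.two_le (S.earF a ha) hau).2
  have hE1 : ∀ c ∈ (S.E.erase a).erase b, c.1 ∈ (S.cut (unrot a)).F ∧
      (S.cut (unrot a)).g c = c := fun c hc => by
    have hcE : c ∈ (S.cut (unrot a)).E := mem_of_mem_erase (mem_of_mem_erase hc)
    exact ⟨(S.cut (unrot a)).earF c hcE, (S.cut (unrot a)).earFree c hcE⟩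
  obtain ⟨S1, hS1⟩ : ∃ S1, S1 = (S.cut (unrot a)).setE ((S.E.erase a).erase b) hE1 := ⟨_, rfl⟩
  have hle : S1.Le S := by
    rw [hS1]; exact (setE_le _ _ _).trans (cut_le _ _)
  have hF : S1.F = S.F := by rw [hS1]; rfl
  have hE : S1.E = (S.E.erase a).erase b := by rw [hS1]; rfl
  have hv : S1.vis.card = S.vis.card + 2 := by
    rw [hS1]; exact card_vis_cut S hd
  have hconn : S1.Conn := by
    rw [hS1]; exact hC.conn.cut (hbr _)
  have hgl : S1.glued.card < S.glued.card := by
    have h1 := card_glued_cut S hd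
    have h2 : S1.glued.card = (S.cut (unrot a)).glued.card := by rw [hS1]; rfl
    omega
  have hne : ¬ S1.Eqv (S.g (unrot a)) a := by
    have := not_eqv_cut' hl hd
    rw [rot_unrot] at this
    rw [hS1]; exact this
  have hEqv : S.Eqv (S.g (unrot a)) a := by
    have := Eqv.of_glued' (S := S) hd
    rw [rot_unrot] at this
    exact this.symm
  have hEcard : S1.E.card + 2 = S.E.card := by
    rw [hE, card_erase_of_mem (mem_erase.2 ⟨hab.symm, hb⟩), card_erase_of_mem ha]
    have h1 : 1 < S.E.card := one_lt_card.2 ⟨a, ha, b, hb, hab⟩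
    omega
  have hga : S.g (unrot a) ≠ a := fun h1 => hne (by rw [h1]; exact Eqv.refl _ _)
  have hWc : ({S.g (unrot a), a} : Finset (Sd I)).card = 2 := card_pair hga
  obtain ⟨C, hs, hcard⟩ := hC.ih S1 pt (hC.geo.sub hle) hconn
    (fun t ht => hC.sub t (hF ▸ ht)) hgl {S.g (unrot a), a} (by
      intro w hw
      rw [mem_sides, hF]
      rcases mem_insert.1 hw with rfl | hw
      · exact g_memF hd
      · rw [mem_singleton.1 hw]; exact S.earF a ha)
  have hHa : S.Hit C a := (hs.forced a (by simp)).mono hle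
  have hsol : Sol S pt R ∅ C := by
    refine Sol.transfer hle hs (fun w hw => absurd hw (notMem_empty w)) (fun e he => ?_)
      (fun t ht ht' => absurd (hF ▸ ht) ht') (fun t ht ht' => absurd (hF ▸ ht) ht')
    by_cases h1 : e = a
    · rw [h1]; exact Or.inl hHa
    · by_cases h2 : e = b
      · rw [h2]; exact Or.inr (hHa.eqv h)
      · have he1 : e ∈ S1.E := by
          rw [hE]; exact mem_erase.2 ⟨h2, mem_erase.2 ⟨h1, he⟩⟩
        exact (hs.ear e he1).imp (fun h => h.mono hle) (fun h => h.mono hle)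
  obtain ⟨d, hdC, d', hd'C, hdd, hdeq, -⟩ := exists_dup (w := S.g (unrot a)) (w' := a) hle hs
    (by simp) (by simp) hne hEqv
  refine hC.bad ⟨C.erase d, hsol.erase hC.geo hd'C hdd hdeq, ?_⟩
  have h3 : (C.erase d).card + 1 = C.card := card_erase_add_one hdC
  rw [hWc] at hcard
  simp only [N2, hF, hv] at hcard
  simp only [N2, card_empty]
  omega

/-- 2.5, second part: the apex visit of a real blade is no ear end -/
theorem Cex.blade_not_earEnd {S : Obj I} {pt : Sd I → Pt} {R : Set Pt} (hC : Cex S pt R)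
    {c : Sd I} (hB : S.Blade c) : ¬ S.EarEnd c := by
  rintro ⟨e, heE, he⟩
  have hl := hC.geo.linear
  have hbr := hC.bridgeless
  have hnot : ∀ x ∈ S.E, x.1 ≠ c.1 := by
    intro x hx hxc
    rcases eq_of_fst_eq hxc with h | h | h
    · rw [h] at hx; exact hB.1 (S.earFree _ hx)
    · rw [h] at hx; exact hB.2.2.2 hx
    · rw [h] at hx; exact hB.2.1 (S.earFree _ hx)
  have hmem0 : ∀ x ∈ S.E, x ∈ (S.keep (S.F \ {c.1})).E := by
    intro x hx
    rw [keep_E, mem_filter, mem_sdiff, mem_singleton]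
    exact ⟨hx, S.earF x hx, hnot x hx⟩
  have hE0 : (S.keep (S.F \ {c.1})).E = S.E := by
    refine subset_antisymm (filter_subset _ _) hmem0
  have hE1 : ∀ x ∈ S.E.erase e, x.1 ∈ (S.keep (S.F \ {c.1})).F ∧
      (S.keep (S.F \ {c.1})).g x = x := fun x hx => by
    have hx1 := hmem0 x (mem_of_mem_erase hx)
    exact ⟨(S.keep (S.F \ {c.1})).earF x hx1, (S.keep (S.F \ {c.1})).earFree x hx1⟩
  obtain ⟨S1, hS1⟩ : ∃ S1, S1 = (S.keep (S.F \ {c.1})).setE (S.E.erase e) hE1 := ⟨_, rfl⟩
  have hle : S1.Le S := by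
    rw [hS1]; exact (setE_le _ _ _).trans (keep_le _ _)
  have hF : S1.F = S.F \ {c.1} := by rw [hS1]; exact keep_F S sdiff_subset
  have hE : S1.E = S.E.erase e := by rw [hS1]; rfl
  have hv : S1.vis.card = (S.keep (S.F \ {c.1})).vis.card := by rw [hS1]; rfl
  have hF0 : S1.F.card = (S.keep (S.F \ {c.1})).F.card := by rw [hS1]; rfl
  have hN := hB.N2_remove 2
  have hconn : S1.Conn := by
    rw [hS1]; exact hB.conn_remove hC.conn hbr
  have hgl : S1.glued.card < S.glued.card := by
    have h1 := card_glued_remove_lt S (M := {c.1}) hB.1 (mem_singleton_self _)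
    have h2 : S1.glued.card = (S.keep (S.F \ {c.1})).glued.card := by rw [hS1]; rfl
    omega
  have hcF : c.1 ∉ S1.F := by
    rw [hF]; simp
  have hne : ¬ S1.Eqv (S.g (unrot c)) (rot (S.g c)) :=
    not_eqv_remove hle hl hB.1 hB.2.1 hcF
  have hEq1 : S.Eqv c (S.g (unrot c)) := by
    have := Eqv.of_glued' (S := S) hB.2.1
    rwa [rot_unrot] at this
  have hEq2 : S.Eqv c (rot (S.g c)) := Eqv.of_glued hB.1
  have hEqv : S.Eqv (S.g (unrot c)) (rot (S.g c)) := hEq1.symm.trans hEq2
  have hEcard : S1.E.card + 1 = S.E.card := by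
    rw [hE]; exact card_erase_add_one heE
  have hga : S.g (unrot c) ≠ rot (S.g c) := fun h1 => hne (by rw [h1]; exact Eqv.refl _ _)
  have hWc : ({S.g (unrot c), rot (S.g c)} : Finset (Sd I)).card = 2 := card_pair hga
  obtain ⟨C, hs, hcard⟩ := hC.ih S1 pt (hC.geo.sub hle) hconn
    (fun t ht => hC.sub t (hle.F ht)) hgl {S.g (unrot c), rot (S.g c)} (by
      intro w hw
      rw [mem_sides, hF, mem_sdiff, mem_singleton]
      rcases mem_insert.1 hw with rfl | hw
      · exact ⟨g_memF hB.2.1, S.ne _ hB.2.1⟩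
      · rw [mem_singleton.1 hw]; exact ⟨g_memF hB.1, S.ne _ hB.1⟩)
  have hHc : S.Hit C c := ((hs.forced _ (mem_insert_self _ _)).mono hle).eqv hEq1.symm
  have hsol : Sol S pt R ∅ C := by
    refine Sol.transfer hle hs (fun w hw => absurd hw (notMem_empty w)) (fun x hx => ?_)
      (fun t ht ht' _ => ?_) (fun t ht ht' => ?_)
    · by_cases h1 : x = e
      · rw [h1]
        rcases he with he | he
        · exact Or.inl (hHc.eqv he.symm)
        · exact Or.inr (hHc.eqv he.symm)
      · have hx1 : x ∈ S1.E := by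
          rw [hE]; exact mem_erase.2 ⟨h1, hx⟩
        exact (hs.ear x hx1).imp (fun h => h.mono hle) (fun h => h.mono hle)
    · have h1 : t = c.1 := by
        by_contra h2
        exact ht' (by rw [hF, mem_sdiff, mem_singleton]; exact ⟨ht, h2⟩)
      exact ⟨c.2, by rw [h1]; exact hHc⟩
    · have h1 : t = c.1 := by
        by_contra h2
        exact ht' (by rw [hF, mem_sdiff, mem_singleton]; exact ⟨ht, h2⟩)
      rw [h1]
      exact hC.geo.cov_of_hit hB.memF (hC.sub _ hB.memF) hHc
  obtain ⟨d, hdC, d', hd'C, hdd, hdeq, -⟩ := exists_dup (w := S.g (unrot c))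
    (w' := rot (S.g c)) hle hs (by simp) (by simp) hne hEqv
  refine hC.bad ⟨C.erase d, hsol.erase hC.geo hd'C hdd hdeq, ?_⟩
  have h3 : (C.erase d).card + 1 = C.card := card_erase_add_one hdC
  rw [hWc] at hcard
  simp only [N2, hF0, hv] at hcard
  simp only [N2, hE0] at hN
  simp only [N2, card_empty]
  omega

end Obj

end AG
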