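import Pool.Agent.AG.Red.Main

/-!
# Project AG, block RED: 2.7 (S1), (S2), candidates, 3.1
-/

namespace AG

open Finset

variable {I : Type} [DecidableEq I]

namespace Obj

/-- the glued sides of a blade triangle -/
theorem Blade.eq_of_glued {S : Obj I} {c x : Sd I} (hB : S.Blade c) (hx : x.1 = c.1)
    (hg : S.g x ≠ x) : x = c ∨ x = unrot c := by
  rcases eq_of_fst_eq hx with h | h | h
  · exact Or.inl h
  · rw [h] at hg; exact absurd hB.2.2.1 hg
  · exact Or.inr h

/-- the blade triangle has no ear -/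
theorem Blade.no_ear {S : Obj I} {c e : Sd I} (hB : S.Blade c) (he : e ∈ S.E) : e.1 ≠ c.1 := by
  intro h
  have h1 := S.earFree e he
  rcases eq_of_fst_eq h with h2 | h2 | h2
  · rw [h2] at h1; exact hB.1 h1
  · rw [h2] at he; exact hB.2.2.2 he
  · rw [h2] at h1; exact hB.2.1 h1

/-- a face has no ear -/
theorem Face.no_ear {S : Obj I} {s : I} (hF : S.Face s) {e : Sd I} (he : e ∈ S.E) : e.1 ≠ s := by
  rintro rfl
  exact hF.2 e.2 (S.earFree e he)

/-- in a minimal counterexample the rest after the removal of a blade has a solution within the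
bound which does not cover the blade -/
theorem Cex.remove_blade {S : Obj I} {pt : Sd I → Pt} {R : Set Pt} (hC : Cex S pt R) {c : Sd I}
    (hB : S.Blade c) :
    ∃ C, Sol (S.keep (S.F \ {c.1})) pt R ∅ C ∧ ¬ Cov pt R C c.1 := by
  have hle := S.keep_le (S.F \ {c.1})
  obtain ⟨C, hs, hcard⟩ := hC.ih (S.keep (S.F \ {c.1})) pt (hC.geo.sub hle)
    (hB.conn_remove hC.conn hC.bridgeless) (fun t ht => hC.sub t (hle.F ht))
    (card_glued_remove_lt S hB.1 (mem_singleton_self _)) ∅ (empty_subset _)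
  refine ⟨C, hs, fun hcov => hC.bad ⟨C, ?_, ?_⟩⟩
  · refine hs.transfer hle (fun w hw => absurd hw (notMem_empty w)) (fun e he => ?_)
      (fun t _ _ hn => absurd hn (Bridgeless.not_noncore hC.conn hC.bridgeless hC.two_le t))
      (fun t ht ht' => ?_)
    · have h1 : e ∈ (S.keep (S.F \ {c.1})).E := by
        rw [keep_E, mem_filter, mem_sdiff, mem_singleton]
        exact ⟨he, S.earF e he, hB.no_ear he⟩
      exact (hs.ear e h1).imp (fun h => h.mono hle) (fun h => h.mono hle)
    · rw [keep_F S sdiff_subset, mem_sdiff, mem_singleton] at ht'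
      have h1 : t = c.1 := by
        by_contra h2
        exact ht' ⟨ht, h2⟩
      rw [h1]; exact hcov
  · rw [hB.N2_remove] at hcard
    exact hcard

/-- (S1): the neighbour of a blade across a diagonal in U is a face -/
theorem Cex.s1 {S : Obj I} {pt : Sd I → Pt} {R : Set Pt} (hC : Cex S pt R) {a : Sd I}
    (hB : S.Blade a ∨ S.Blade (rot a)) (hU : S.IsU pt a) : S.Active a := by
  refine ⟨hU.1, ?_⟩
  by_contra hf
  have key : ∃ C, Sol (S.keep (S.F \ {a.1})) pt R ∅ C ∧ ¬ Cov pt R C a.1 := by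
    rcases hB with hB | hB
    · exact hC.remove_blade hB
    · have h := hC.remove_blade hB
      exact h
  obtain ⟨C, hs, hcov⟩ := key
  obtain ⟨i, hi⟩ := hs.dom _ (noncore_of_not_face hU.1 hf)
  exact hcov (hC.geo.see_U hU (hC.sub _ (S.memF _ hU.1)) (hC.sub _ (g_memF hU.1))
    ⟨i, hi.mono (S.keep_le _)⟩)

/-- (S2): a pair-ready blade has a neighbour which is a face -/
theorem Cex.s2 {S : Obj I} {pt : Sd I → Pt} {R : Set Pt} (hC : Cex S pt R) {c : Sd I}
    (hB : S.Blade c) (hp : S.PairAt pt c) : S.Active c ∨ S.Active (unrot c) := by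
  by_contra hcon
  rw [not_or] at hcon
  have h1 : ¬ S.Face (S.g c).1 := fun h => hcon.1 ⟨hB.1, h⟩
  have h2 : ¬ S.Face (S.g (unrot c)).1 := fun h => hcon.2 ⟨hB.2.1, h⟩
  obtain ⟨C, hs, hcov⟩ := hC.remove_blade hB
  obtain ⟨i, hi⟩ := hs.dom _ (noncore_of_not_face hB.1 h1)
  have hn2 : (S.keep (S.F \ {c.1})).Noncore (S.g (unrot c)).1 :=
    noncore_of_not_face (a := unrot c) hB.2.1 h2
  obtain ⟨j, hj⟩ := hs.dom _ hn2
  exact hcov (hC.geo.see_pair hp (hC.sub _ hB.memF) (hC.sub _ (g_memF hB.1))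
    (hC.sub _ (g_memF hB.2.1)) ⟨i, hi.mono (S.keep_le _)⟩ ⟨j, hj.mono (S.keep_le _)⟩)

/-- a U diagonal of a blade gives a candidate -/
theorem Cex.cand_of_U {S : Obj I} {pt : Sd I → Pt} {R : Set Pt} (hC : Cex S pt R) {a : Sd I}
    (hB : S.Blade a ∨ S.Blade (rot a)) (hU : S.IsU pt a) : S.Cand pt a := by
  have hA := hC.s1 hB hU
  rcases hB with hB | hB
  · exact Or.inl ⟨hB, hA, Or.inl hU⟩
  · exact Or.inr ⟨hB, hA, Or.inl hU⟩

omit [DecidableEq I] in
theorem Cand.active {S : Obj I} {pt : Sd I → Pt} {a : Sd I} (hc : S.Cand pt a) :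
    S.Active a := by
  rcases hc with hc | hc
  · exact hc.2.1
  · exact hc.2.1

omit [DecidableEq I] in
theorem Cand.blade {S : Obj I} {pt : Sd I → Pt} {a : Sd I} (hc : S.Cand pt a) :
    S.Blade a ∨ S.Blade (rot a) := hc.imp (fun h => h.1) (fun h => h.1)

/-- sub-objects without the triangle `t` are sub-objects of the rest after the removal of `t` -/
theorem Le.keep_sdiff {S' S : Obj I} (hle : S'.Le S) {t : I} (ht : t ∉ S'.F) :
    S'.Le (S.keep (S.F \ {t})) := by
  refine ⟨fun s hs => ?_, fun b => ?_⟩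
  · rw [keep_F S sdiff_subset, mem_sdiff, mem_singleton]
    refine ⟨hle.F hs, ?_⟩
    rintro rfl
    exact ht hs
  · by_cases hb : S'.g b = b
    · exact Or.inr hb
    · left
      obtain ⟨h1, _⟩ := hle.glued hb
      have h2 := S'.memF b hb
      have h3 := g_memF (S := S') hb
      rw [h1] at h3
      rw [keep_g, if_pos, h1]
      rw [mem_sdiff, mem_sdiff, mem_singleton, mem_singleton]
      refine ⟨⟨hle.F h2, ?_⟩, hle.F h3, ?_⟩
      · intro h; rw [h] at h2; exact ht h2
      · intro h; rw [h] at h3; exact ht h3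

/-- `a` a candidate, `t = a.1`, `s = (S.g a).1`.  If the sub-object `S'` does not contain `t`, but
contains the OTHER neighbour of `t`, `C` solves `S'` and hits the corner `unrot (S.g a)` of `s`,
then `t` is covered -/
theorem Cand.cov {S S' : Obj I} {pt : Sd I → Pt} {R : Set Pt} (hg : S.Geo pt)
    (hR : ∀ t ∈ S.F, tri pt t ⊆ R) {a : Sd I} (hc : S.Cand pt a) (hle : S'.Le S)
    (ht : a.1 ∉ S'.F) (hoth : ∀ b : Sd I, b.1 = a.1 → S.g b ≠ b → b ≠ a → (S.g b).1 ∈ S'.F)
    {W C : Finset (Sd I)} (hs : Sol S' pt R W C) (hhit : S.Hit C (unrot (S.g a))) :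
    Cov pt R C a.1 := by
  have hA := hc.active
  have hit1 : ∃ i, S.Hit C ((S.g a).1, i) := ⟨(unrot (S.g a)).2, hhit⟩
  have hT : tri pt a.1 ⊆ R := hR _ (S.memF _ hA.1)
  have hS : tri pt (S.g a).1 ⊆ R := hR _ (g_memF hA.1)
  -- the other neighbour is dominated if it is not a face
  have hoth2 : ∀ b : Sd I, b.1 = a.1 → S.g b ≠ b → b ≠ a → ¬ S.Active b →
      ∃ i, S.Hit C ((S.g b).1, i) := by
    intro b hb hgb hne hna
    have h1 : ¬ S.Face (S.g b).1 := fun h => hna ⟨hgb, h⟩
    have h2 := noncore_of_not_face hgb h1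
    have h3 : b.1 ∉ S'.F := by rw [hb]; exact ht
    obtain ⟨i, hi⟩ := hs.dom _ (h2.mono (hle.keep_sdiff h3) (hoth b hb hgb hne))
    exact ⟨i, hi.mono hle⟩
  rcases hc with ⟨hB, _, hU | ⟨hp, hna⟩⟩ | ⟨hB, _, hU | ⟨hp, hna⟩⟩
  · exact hg.see_U hU hT hS hit1
  · exact hg.see_pair hp hT hS (hR _ (g_memF hB.2.1)) hit1
      (hoth2 (unrot a) rfl hB.2.1 (unrot_ne a) hna)
  · exact hg.see_U hU hT hS hit1
  · have h1 : Cov pt R C (rot a).1 := by
      refine hg.see_pair hp hT (hR _ (g_memF hB.1)) ?_ 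
        (hoth2 (rot a) rfl hB.1 (rot_ne a) hna) ?_
      · rw [unrot_rot]; exact hS
      · rw [unrot_rot]; exact hit1
    exact h1

/-- a blade triangle and an adjacent face have only one common side -/
theorem Blade.single_glued {S : Obj I} (hb : S.Bridgeless) {a b : Sd I}
    (hB : S.Blade a ∨ S.Blade (rot a)) (hA : S.Active a) (h1 : b.1 = a.1) (h2 : S.g b ≠ b)
    (h3 : b ≠ a) : (S.g b).1 ≠ (S.g a).1 := by
  intro he
  -- the glued sides of `t` are `a` and `b`
  have ht : ∀ x : Sd I, x.1 = a.1 → S.g x ≠ x → x = a ∨ x = b := by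
    intro x hx hxg
    rcases hB with hB | hB
    · have h4 := hB.eq_of_glued h1 h2
      rcases hB.eq_of_glued hx hxg with h5 | h5
      · exact Or.inl h5
      · rcases h4 with h4 | h4
        · exact absurd h4 h3
        · exact Or.inr (h5.trans h4.symm)
    · have h4 := hB.eq_of_glued (x := b) h1 h2
      rw [unrot_rot] at h4
      have h5 := hB.eq_of_glued (x := x) hx hxg
      rw [unrot_rot] at h5
      rcases h5 with h5 | h5
      · rcases h4 with h4 | h4
        · exact Or.inr (h5.trans h4.symm)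
        · exact absurd h4 h3
      · exact Or.inl h5
  have hne : S.g b ≠ S.g a := fun h => h3 (S.g_injective h)
  -- the third side of `s`
  obtain ⟨c, hc1, hc2, hc3, hc4⟩ : ∃ c : Sd I, c.1 = (S.g a).1 ∧ c ≠ S.g a ∧ c ≠ S.g b ∧
      ∀ x : Sd I, x.1 = (S.g a).1 → x = S.g a ∨ x = S.g b ∨ x = c := by
    rcases eq_of_fst_eq he with h4 | h4 | h4
    · exact absurd h4 hne
    · refine ⟨unrot (S.g a), rfl, unrot_ne _, by rw [h4]; exact unrot_ne_rot _, fun x hx => ?_⟩
      rw [h4]; exact eq_of_fst_eq hx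
    · refine ⟨rot (S.g a), rfl, rot_ne _, by rw [h4]; exact (unrot_ne_rot _).symm,
        fun x hx => ?_⟩
      rw [h4]
      rcases eq_of_fst_eq hx with h5 | h5 | h5
      · exact Or.inl h5
      · exact Or.inr (Or.inr h5)
      · exact Or.inr (Or.inl h5)
  have hcg : S.g c ≠ c := by
    have : S.Face c.1 := by rw [hc1]; exact hA.2
    exact this.glued rfl
  refine hb c ⟨{a.1, (S.g a).1}, ?_, ?_⟩
  · intro x hx
    rw [mem_insert, mem_singleton] at hx
    rcases hx with rfl | rfl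
    · exact S.memF _ hA.1
    · exact g_memF hA.1
  · ext x
    rw [mem_bd, mem_singleton, mem_insert, mem_singleton, mem_insert, mem_singleton, not_or]
    constructor
    · rintro ⟨h4, h5 | h5, h6, h7⟩
      · exfalso
        rcases ht x h5 h4 with rfl | rfl
        · exact h7 rfl
        · exact h7 he
      · rcases hc4 x h5 with rfl | rfl | rfl
        · rw [S.invol] at h6; exact absurd rfl h6
        · rw [S.invol] at h6; exact absurd h1 h6
        · rfl
    · rintro rfl
      refine ⟨hcg, Or.inr hc1, fun h4 => ?_, fun h4 => ?_⟩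
      · rcases ht _ h4 (g_ne_iff.2 hcg) with h5 | h5
        · exact hc2 (by rw [← h5, S.invol])
        · exact hc3 (by rw [← h5, S.invol])
      · exact S.ne x hcg (h4.trans hc1.symm)

/-- 3.1: the visit of a virtual blade is no ear end -/
theorem Cex.cand_not_earEnd {S : Obj I} {pt : Sd I → Pt} {R : Set Pt} (hC : Cex S pt R)
    {a : Sd I} (hc : S.Cand pt a) : ¬ S.EarEnd (unrot (S.g a)) := by
  rintro ⟨e, heE, hew⟩
  have hB := hc.blade
  have hA := hc.active
  have hsg := fun b => Blade.single_glued (b := b) hC.bridgeless hB hA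
  obtain ⟨w, hw⟩ : ∃ w, w = unrot (S.g a) := ⟨_, rfl⟩
  have hw1 : w.1 = (S.g a).1 := by rw [hw]; rfl
  rw [← hw] at hew
  -- the sides at the corner `w`
  have hwf : S.Face w.1 := by rw [hw1]; exact hA.2
  have hg1 : S.g w ≠ w := hwf.glued rfl
  have hg2 : S.g (unrot w) ≠ unrot w := hwf.glued (unrot_fst w)
  obtain ⟨S1, hS1⟩ : ∃ S1, S1 = S.keep (S.F \ {a.1, (S.g a).1}) := ⟨_, rfl⟩
  have hle1 : S1.Le S := by rw [hS1]; exact S.keep_le _
  have hF1 : ∀ t, t ∈ S1.F ↔ t ∈ S.F ∧ t ≠ a.1 ∧ t ≠ (S.g a).1 := by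
    intro t
    rw [hS1, keep_F S sdiff_subset, mem_sdiff, mem_insert, mem_singleton, not_or]
  have hconn1 : S1.Conn := by rw [hS1]; exact conn_remove_two hC.conn hC.bridgeless hB hA
  have hN1 : ∀ k, S1.N2 k = S.N2 k := by
    intro k; rw [hS1]; exact N2_remove_two hC.conn hC.bridgeless hB hA k
  have hlt1 : S1.glued.card < S.glued.card := by
    rw [hS1]; exact card_glued_remove_lt S hA.1 (mem_insert_self _ _)
  have hearT : ∀ f ∈ S.E, f.1 ≠ a.1 := by
    intro f hf
    rcases hB with hB | hB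
    · exact hB.no_ear hf
    · exact hB.no_ear hf
  have hE1 : ∀ f, f ∈ S1.E ↔ f ∈ S.E := by
    intro f
    rw [hS1, keep_E, mem_filter, mem_sdiff, mem_insert, mem_singleton, not_or]
    constructor
    · exact fun h => h.1
    · exact fun h => ⟨h, S.earF f h, hearT f h, hA.2.no_ear h⟩
  -- the neighbours of `w`
  have hnb : ∀ b : Sd I, b.1 = (S.g a).1 → b ≠ S.g a → S.g b ≠ b → (S.g b).1 ∈ S1.F := by
    intro b h1 h2 h3
    rw [hF1]
    refine ⟨g_memF h3, fun h4 => ?_, fun h4 => S.ne b h3 (h4.trans h1.symm)⟩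
    have h5 : S.g b ≠ a := by
      intro h6; exact h2 (by rw [← h6, S.invol])
    have h6 := hsg (S.g b) h4 (g_ne_iff.2 h3) h5
    rw [S.invol] at h6
    exact h6 h1
  have hwne : w ≠ S.g a := by rw [hw]; exact unrot_ne _
  have hwne2 : unrot w ≠ S.g a := by rw [hw, unrot_unrot]; exact rot_ne _
  have hm1 : (rot (S.g w)).1 ∈ S1.F := hnb w hw1 hwne hg1
  have hm2 : (S.g (unrot w)).1 ∈ S1.F := hnb (unrot w) hw1 hwne2 hg2
  -- drop the ear
  have heF : e ∈ S1.E := (hE1 e).2 heE
  obtain ⟨S2, hS2⟩ : ∃ S2, S2 = S1.setE (S1.E.erase e)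
      (fun b hb => ⟨S1.earF b (mem_of_mem_erase hb), S1.earFree b (mem_of_mem_erase hb)⟩) :=
    ⟨_, rfl⟩
  have hS2F : S2.F = S1.F := by rw [hS2]; rfl
  have hS2E : S2.E = S1.E.erase e := by rw [hS2]; rfl
  have hle2 : S2.Le S := by
    rw [hS2]; exact (setE_le _ _ _).trans hle1
  have hconn2 : S2.Conn := by rw [hS2]; exact hconn1
  have hlt2 : S2.glued.card < S.glued.card := by rw [hS2]; exact hlt1
  have hvis2 : S2.vis.card = S1.vis.card := by rw [hS2]; rfl
  have hN2 : ∀ k, S2.N2 k + 2 = S.N2 k := by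
    intro k
    rw [← hN1 k]
    simp only [N2, hS2F, hvis2, hS2E, card_erase_of_mem heF]
    have := card_pos.2 ⟨e, heF⟩
    omega
  obtain ⟨W, hW⟩ : ∃ W : Finset (Sd I), W = {S.g (unrot w), rot (S.g w)} := ⟨_, rfl⟩
  have hWc : W.card ≤ 2 := by rw [hW]; exact card_le_two
  have hWs : W ⊆ S2.sides := by
    intro x hx
    rw [hW, mem_insert, mem_singleton] at hx
    rw [mem_sides, hS2F]
    rcases hx with rfl | rfl
    · exact hm2
    · exact hm1
  obtain ⟨C, hs, hcard⟩ := hC.ih S2 pt (hC.geo.sub hle2) hconn2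
    (fun t ht => hC.sub t (hle2.F ht)) hlt2 W hWs
  -- the corner `w` is hit
  have hwS2 : w.1 ∉ S2.F := by
    rw [hS2F, hF1]; exact fun h => h.2.2 hw1
  have heq1 : S.Eqv (S.g (unrot w)) w := by
    have := (Eqv.of_glued' hg2).symm
    rwa [rot_unrot] at this
  have heq2 : S.Eqv w (rot (S.g w)) := Eqv.of_glued hg1
  obtain ⟨d, hd, d', hd', hne, hdd, hdw⟩ := exists_dup hle2 hs
    (w := S.g (unrot w)) (w' := rot (S.g w)) (by rw [hW]; exact mem_insert_self _ _)
    (by rw [hW]; exact mem_insert_of_mem (mem_singleton_self _))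
    (not_eqv_remove hle2 hC.geo.linear hg1 hg2 hwS2) (heq1.trans heq2)
  have hhit : S.Hit C w := ⟨d, hd, hdw.trans heq1⟩
  have hsol : Sol S pt R ∅ C := by
    refine hs.transfer hle2 (fun w hw => absurd hw (notMem_empty w)) (fun f hf => ?_)
      (fun t _ _ hn => absurd hn (Bridgeless.not_noncore hC.conn hC.bridgeless hC.two_le t))
      (fun t ht ht' => ?_)
    · by_cases hfe : f = e
      · subst hfe
        rcases hew with h | h
        · exact Or.inl (hhit.eqv h.symm)
        · exact Or.inr (hhit.eqv h.symm)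
      · have h1 : f ∈ S2.E := by
          rw [hS2E, mem_erase]
          exact ⟨hfe, (hE1 f).2 hf⟩
        exact (hs.ear f h1).imp (fun h => h.mono hle2) (fun h => h.mono hle2)
    · rw [hS2F, hF1] at ht'
      by_cases h1 : t = a.1
      · subst h1
        refine Cand.cov hC.geo hC.sub hc hle2 ?_ ?_ hs (by rw [← hw]; exact hhit)
        · rw [hS2F, hF1]; exact fun h => h.2.1 rfl
        · intro b h2 h3 h4
          rw [hS2F, hF1]
          exact ⟨g_memF h3, fun h5 => S.ne b h3 (h5.trans h2.symm), hsg b h2 h3 h4⟩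
      · have h2 : t = w.1 := by
          rw [hw1]
          by_contra h3
          exact ht' ⟨ht, h1, h3⟩
        rw [h2]
        exact hC.geo.cov_of_hit hwf.1 (hC.sub _ hwf.1) hhit
  refine hC.bad ⟨C.erase d, hsol.erase hC.geo hd' hne hdd, ?_⟩
  rw [card_erase_of_mem hd, card_empty]
  have h1 := hN2 W.card
  have h2 : S.N2 W.card ≤ S.N2 0 + 8 := by
    simp only [N2]; omega
  have h3 := card_pos.2 ⟨d, hd⟩
  omega

end Obj

end AG
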