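import Pool.Agent.AG.Red.S12
import Pool.Agent.AG.GeoSee
import Pool.Agent.AG.GeoLin

/-!
# Project AG, 5.2: coincidences of two blades at the same visit

`w`, `w₁`, `w₂` are corners; a virtual blade at `w` consists of the face `s = w.1` and the blade
triangle `t = (S.g (rot w)).1`.
-/

set_option linter.unusedSectionVars false

namespace AG

open Finset

variable {I : Type} [DecidableEq I]

namespace Obj

/-- virtual blade at the corner `w` -/
def Virt (S : Obj I) (pt : Sd I → Pt) (w : Sd I) : Prop := S.VirtA pt w ∨ S.VirtB pt w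

section

variable {S : Obj I} {pt : Sd I → Pt}

theorem VirtA.glued {w : Sd I} (h : S.VirtA pt w) : S.g (rot w) ≠ rot w :=
  g_ne_iff.1 h.2.1.1

theorem VirtB.glued {w : Sd I} (h : S.VirtB pt w) : S.g (rot w) ≠ rot w :=
  g_ne_iff.1 h.2.1.1

theorem Virt.glued {w : Sd I} (h : S.Virt pt w) : S.g (rot w) ≠ rot w :=
  h.elim VirtA.glued VirtB.glued

theorem Virt.face {w : Sd I} (h : S.Virt pt w) : S.Face w.1 :=
  h.elim VirtA.face VirtB.face

theorem Virt.not_face {w : Sd I} (h : S.Virt pt w) : ¬ S.Face (S.g (rot w)).1 := by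
  intro hf
  rcases h with h | h
  · exact hf.glued (rot_fst _) h.1.2.2.1
  · exact hf.glued (a := rot (rot (S.g (rot w)))) rfl h.1.2.2.1

theorem BladeAt.iff {w : Sd I} : S.BladeAt pt w ↔ S.Blade w ∨ S.Virt pt w := Iff.rfl

/-- the only glued sides of the blade triangle of a virtual blade of type A -/
theorem VirtA.only {w d : Sd I} (h : S.VirtA pt w) (hd : d.1 = (S.g (rot w)).1)
    (hg : S.g d ≠ d) : d = S.g (rot w) ∨ d = unrot (S.g (rot w)) := by
  rcases eq_of_fst_eq hd with h1 | h1 | h1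
  · exact Or.inl h1
  · subst h1; exact absurd h.1.2.2.1 hg
  · exact Or.inr h1

/-- the only glued sides of the blade triangle of a virtual blade of type B -/
theorem VirtB.only {w d : Sd I} (h : S.VirtB pt w) (hd : d.1 = (S.g (rot w)).1)
    (hg : S.g d ≠ d) : d = S.g (rot w) ∨ d = rot (S.g (rot w)) := by
  rcases eq_of_fst_eq hd with h1 | h1 | h1
  · exact Or.inl h1
  · exact Or.inr h1
  · subst h1
    have h2 := h.1.2.2.1
    rw [rot_rot] at h2
    exact absurd h2 hg

end

end Obj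

open Obj

namespace Geo

variable {S : Obj I} {pt : Sd I → Pt} (hG : Geo S pt)
include hG

/-- two blades at the same visit are in different triangles -/
theorem blade_fst_ne {w₁ w₂ : Sd I} (h₁ : w₁.1 ∈ S.F) (hne : w₁ ≠ w₂) (he : pt w₁ = pt w₂) :
    w₁.1 ≠ w₂.1 := fun h => hne (hG.eq_of_fst (h ▸ h₁) h he)

/-- NO CORNER OF THE BLADE TRIANGLE OF A VIRTUAL BLADE AT `w` IS AT THE POINT OF `w` -/
theorem pt_ne_of_across {w d : Sd I} (h : S.g (rot w) ≠ rot w) (hd : d.1 = (S.g (rot w)).1) :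
    pt d ≠ pt w := by
  have hw : w.1 ∈ S.F := S.memF (rot w) h
  rcases eq_of_fst_eq hd with h1 | h1 | h1
  · subst h1
    rw [hG.mat' h, rot_rot]
    exact (hG.pt_ne_unrot hw).symm
  · subst h1
    rw [hG.mat _ h]
    exact (hG.pt_ne_rot hw).symm
  · subst h1
    have := hG.apex_ne h
    rw [unrot_rot] at this
    exact this.symm

theorem not_eqv_of_across {w d : Sd I} (h : S.g (rot w) ≠ rot w) (hd : d.1 = (S.g (rot w)).1) :
    ¬ S.Eqv d w := fun he => hG.pt_ne_of_across h hd (hG.pt_eqv he)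

/-- no side of the blade triangle of a virtual blade at `w` has an end at the point of `w` -/
theorem pt_ne_of_across' {w d : Sd I} (h : S.g (rot w) ≠ rot w) (hd : d.1 = (S.g (rot w)).1) :
    pt (rot d) ≠ pt w := hG.pt_ne_of_across h (by rw [rot_fst, hd])

/-- (c1) the blade triangles of two different virtual blades at the same visit are different -/
theorem coin1 {w₁ w₂ : Sd I} (h₁ : S.g (rot w₁) ≠ rot w₁) (h₂ : S.g (rot w₂) ≠ rot w₂)
    (hne : w₁ ≠ w₂) (he : pt w₁ = pt w₂) : (S.g (rot w₁)).1 ≠ (S.g (rot w₂)).1 := by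
  intro ht
  have e1 : pt (unrot (S.g (S.g (rot w₁)))) = pt w₁ := by rw [S.invol, unrot_rot]
  have e2 : pt (unrot (S.g (S.g (rot w₂)))) = pt w₂ := by rw [S.invol, unrot_rot]
  rcases eq_of_fst_eq ht with h | h | h
  · exact hne (rot_injective (S.g_injective h))
  · -- `g (rot w₁) = rot (g (rot w₂))`
    have h3 : S.g (rot w₂) = unrot (S.g (rot w₁)) := by rw [h, unrot_rot]
    have := hG.c1 (c := S.g (rot w₁)) (g_ne_iff.2 h₁) (by rw [← h3]; exact g_ne_iff.2 h₂)
    rw [← h3, e1, e2] at this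
    exact this he
  · have := hG.c1 (c := S.g (rot w₂)) (g_ne_iff.2 h₂) (by rw [← h]; exact g_ne_iff.2 h₁)
    rw [← h, e1, e2] at this
    exact this he.symm

/-- (c2) the blade triangle of a virtual blade at `w₁` is not glued to the triangle of another
(real or virtual) blade at the same visit -/
theorem coin2 {w₁ w₂ : Sd I} (h₁ : S.g (rot w₁) ≠ rot w₁) (hne : w₁ ≠ w₂)
    (he : pt w₁ = pt w₂) {d : Sd I} (hd : d.1 = (S.g (rot w₁)).1) (hg : S.g d ≠ d) :
    (S.g d).1 ≠ w₂.1 := by
  intro h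
  rcases eq_of_fst_eq h with h3 | h3 | h3
  · -- the side of `w₂.1` is `w₂`
    have h4 := hG.mat d hg
    have h5 := hG.mat' hg
    rw [h3] at h5
    exact hG.pt_ne_of_across' h₁ hd (h5.symm.trans he.symm)
  · -- the side opposite to `w₂`
    have h4 : d = S.g (rot w₂) := by rw [← h3, S.invol]
    have h5 : S.g (rot w₂) ≠ rot w₂ := by
      rw [← h4, ← h3]; exact hg.symm
    exact hG.coin1 h₁ h5 hne he (by rw [← hd, h4])
  · have h4 := hG.mat d hg
    rw [h3, rot_unrot] at h4
    exact hG.pt_ne_of_across h₁ hd (h4.symm.trans he.symm)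

/-- (c2), the other direction -/
theorem coin2' {w₁ w₂ : Sd I} (h₁ : S.g (rot w₁) ≠ rot w₁) (hne : w₁ ≠ w₂)
    (he : pt w₁ = pt w₂) {d : Sd I} (hd : d.1 = w₂.1) (hg : S.g d ≠ d) :
    (S.g d).1 ≠ (S.g (rot w₁)).1 := by
  intro h
  have := hG.coin2 h₁ hne he h (g_ne_iff.2 hg)
  rw [S.invol] at this
  exact this hd

/-- the blade triangle of a virtual blade at `w₁` is not the triangle of a real or virtual blade
at the same visit -/
theorem coin1' {w₁ w₂ : Sd I} (h₁ : S.g (rot w₁) ≠ rot w₁) (he : pt w₁ = pt w₂) :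
    (S.g (rot w₁)).1 ≠ w₂.1 := fun h =>
  hG.pt_ne_of_across (d := w₂) h₁ h.symm he.symm

/-- core of (c3): both of type A -/
theorem coin3A {w₁ w₂ : Sd I} (h₁ : S.Face w₁.1) (hU : S.IsU pt (S.g (rot w₂)))
    (he : pt w₁ = pt w₂) (hx : pt (unrot (S.g (rot w₂))) = pt (unrot w₁)) : False := by
  refine hG.no_side_across hU (d := unrot w₁) h₁.1 ⟨hx.symm, ?_⟩
  rw [rot_unrot, S.invol, unrot_rot, he]

/-- core of (c3): both of type B -/
theorem coin3B {w₁ w₂ : Sd I} (h₁ : S.Face w₁.1) (hU : S.IsU pt (S.g (rot w₂)))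
    (he : pt w₁ = pt w₂) (hx : pt (unrot (S.g (rot w₂))) = pt (rot w₁)) : False := by
  refine hG.no_side_across' hU (d := w₁) h₁.1 ⟨?_, hx.symm⟩
  rw [S.invol, unrot_rot, he]

/-- (c3) if the blade triangles of two virtual blades at the same visit are adjacent, then they
have the same apex: the apex corners are consecutive in their fan, and one blade is of type A, the
other one of type B -/
theorem coin3 {w₁ w₂ : Sd I} (h₁ : S.Virt pt w₁) (h₂ : S.Virt pt w₂) (he : pt w₁ = pt w₂)
    {d : Sd I} (hd : d.1 = (S.g (rot w₁)).1) (hg : S.g d ≠ d)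
    (hd2 : (S.g d).1 = (S.g (rot w₂)).1) :
    (S.VirtA pt w₁ ∧ S.VirtB pt w₂ ∧ S.Step (rot (S.g (rot w₂))) (S.g (rot w₁))) ∨
    (S.VirtB pt w₁ ∧ S.VirtA pt w₂ ∧ S.Step (rot (S.g (rot w₁))) (S.g (rot w₂))) := by
  have hg' := g_ne_iff.2 hg
  -- `d` is not the virtual side
  have n1 : d ≠ S.g (rot w₁) := by
    intro h
    apply h₂.not_face
    rw [← hd2, h, S.invol]
    exact h₁.face
  have n2 : S.g d ≠ S.g (rot w₂) := by
    intro h
    apply h₁.not_face
    rw [← hd, S.g_injective h]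
    exact h₂.face
  have m1 := hG.mat d hg
  have m2 := hG.mat' hg
  -- the position of the apexes
  have q1 : pt (S.g (rot w₁)) = pt (unrot w₁) := by rw [hG.mat' h₁.glued, rot_rot]
  have q1' : pt (rot (S.g (rot w₁))) = pt (rot w₁) := hG.mat _ h₁.glued
  have q2 : pt (S.g (rot w₂)) = pt (unrot w₂) := by rw [hG.mat' h₂.glued, rot_rot]
  have q2' : pt (rot (S.g (rot w₂))) = pt (rot w₂) := hG.mat _ h₂.glued
  have nb : ¬ (S.Blk pt d ∧ S.Blk pt (S.g d)) := fun h => hG.not_blk_both h.1 h.2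
  rcases h₁ with h₁ | h₁ <;> rcases h₂ with h₂ | h₂
  · -- A, A
    exfalso
    have e1 := (h₁.only hd hg).resolve_left n1
    have e2 := (h₂.only hd2 hg').resolve_left n2
    have u1 : S.IsU pt (S.g (rot w₁)) ∨ S.Blk pt (S.g d) := by
      rcases h₁.2.2 with h | h
      · exact Or.inl h
      · right; rw [e1]; exact h.1.b2
    have u2 : S.IsU pt (S.g (rot w₂)) ∨ S.Blk pt d := by
      rcases h₂.2.2 with h | h
      · exact Or.inl h
      · right
        have h3 := h.1.b2
        rwa [← e2, S.invol] at h3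
    rcases u1 with u1 | u1
    · -- `t₁` is of type U
      refine hG.coin3A h₂.face u1 he.symm ?_
      rw [← e1, ← m1, e2, rot_unrot, q2]
    rcases u2 with u2 | u2
    · refine hG.coin3A h₁.face u2 he ?_
      rw [← e2, m2, e1, rot_unrot, q1]
    exact nb ⟨u2, u1⟩
  · -- A, B
    left
    have e1 := (h₁.only hd hg).resolve_left n1
    have e2 := (h₂.only hd2 hg').resolve_left n2
    refine ⟨h₁, h₂, ?_, ?_⟩
    · rw [← e2]; exact hg'
    · rw [← e2, S.invol, e1, rot_unrot]
  · -- B, A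
    right
    have e1 := (h₁.only hd hg).resolve_left n1
    have e2 := (h₂.only hd2 hg').resolve_left n2
    refine ⟨h₁, h₂, ?_, ?_⟩
    · rw [← e1]; exact hg
    · rw [← e1, e2, rot_unrot]
  · -- B, B
    exfalso
    have e1 := (h₁.only hd hg).resolve_left n1
    have e2 := (h₂.only hd2 hg').resolve_left n2
    have u1 : S.IsU pt (S.g (rot w₁)) ∨ S.Blk pt d := by
      rcases h₁.2.2 with h | h
      · exact Or.inl h
      · right; rw [e1]; exact h.1.b1
    have u2 : S.IsU pt (S.g (rot w₂)) ∨ S.Blk pt (S.g d) := by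
      rcases h₂.2.2 with h | h
      · exact Or.inl h
      · right; rw [e2]; exact h.1.b1
    rcases u1 with u1 | u1
    · refine hG.coin3B h₂.face u1 he.symm ?_
      rw [← rot_rot, ← e1, ← m2, e2, q2']
    rcases u2 with u2 | u2
    · refine hG.coin3B h₁.face u2 he ?_
      rw [← rot_rot, ← e2, m1, e1, q1']
    exact nb ⟨u1, u2⟩

end Geo

end AG
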