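import Pool.Agent.AG.Blades

/-!
# Project AG, block RED (sections 1-3): basic tools
-/

namespace AG

open Finset

variable {I : Type} [DecidableEq I]

namespace Obj

/-! ### geometric objects: heredity, points of equivalent corners -/

theorem Geo.pt_eq {S : Obj I} {pt : Sd I → Pt} (hg : S.Geo pt) {a b : Sd I} (h : S.Eqv a b) :
    pt a = pt b := hg.pt_eqv h

theorem Geo.ccw_at {S : Obj I} {pt : Sd I → Pt} (hg : S.Geo pt) {a : Sd I} (ha : a.1 ∈ S.F) :
    Ccw (pt a) (pt (rot a)) (pt (unrot a)) := hg.ccw ha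

theorem Geo.sub {S' S : Obj I} {pt : Sd I → Pt} (hg : S.Geo pt) (h : S'.Le S) : S'.Geo pt :=
  hg.mono h

/-! ### iterating `cw` -/

theorem Linear.glued_of_iter {S : Obj I} (hl : S.Linear) {a : Sd I} (ha : S.g a ≠ a) {m : ℕ}
    (hm : 0 < m) : S.cw^[m] a ≠ a := by
  intro h
  obtain ⟨n, hn⟩ := hl a
  have h1 : S.cw^[m * n] a = a := by
    rw [Function.iterate_mul]
    exact Function.iterate_fixed h n
  have h2 : n ≤ m * n := Nat.le_mul_of_pos_left n hm
  obtain ⟨k, hk⟩ := Nat.exists_eq_add_of_le h2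
  rw [hk, add_comm, Function.iterate_add_apply, cw_iter_of_unglued hn] at h1
  rw [h1] at hn
  exact ha hn

theorem last_eq_iter {S' S : Obj I} (h : S'.Le S) (hl : S'.Linear) (b : Sd I) :
    ∃ n, S'.last b = S.cw^[n] b := by
  obtain ⟨n, hn⟩ := hl b
  rw [last_eq_of hn]
  clear hn
  induction n with
  | zero => exact ⟨0, rfl⟩
  | succ n ih =>
    obtain ⟨m, hm⟩ := ih
    rw [Function.iterate_succ_apply', hm]
    by_cases h1 : S'.g (S.cw^[m] b) = S.cw^[m] b
    · exact ⟨m, cw_of_unglued h1⟩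
    · obtain ⟨h2, h3⟩ := h.glued h1
      refine ⟨m + 1, ?_⟩
      rw [Function.iterate_succ_apply']
      simp [cw, h2, h3]

/-- if the corner `a` is glued in `S` but not in `S'`, then in `S'` it is not equivalent to the
corners which come after it in the clockwise direction -/
theorem not_eqv_iter {S' S : Obj I} (h : S'.Le S) (hl : S.Linear) {a : Sd I} (ha : S.g a ≠ a)
    (ha' : S'.g a = a) {m : ℕ} (hm : 0 < m) : ¬ S'.Eqv a (S.cw^[m] a) := by
  intro he
  have hl' := Linear.mono h hl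
  rw [eqv_iff hl', last_of_unglued ha'] at he
  obtain ⟨n, hn⟩ := last_eq_iter h hl' (S.cw^[m] a)
  rw [hn, ← Function.iterate_add_apply] at he
  exact hl.glued_of_iter ha (by omega : 0 < n + m) he.symm

/-- the two corners at the start of a cut side are not equivalent after the cut -/
theorem not_eqv_cut {S : Obj I} (hl : S.Linear) {a : Sd I} (ha : S.g a ≠ a) :
    ¬ (S.cut a).Eqv a (rot (S.g a)) := by
  have := not_eqv_iter (cut_le S a) hl ha (by simp [cut_g]) (m := 1) one_pos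
  simpa [cw, ha] using this

theorem not_eqv_cut' {S : Obj I} (hl : S.Linear) {a : Sd I} (ha : S.g a ≠ a) :
    ¬ (S.cut a).Eqv (S.g a) (rot a) := by
  have := not_eqv_iter (cut_le S a) hl (g_ne_iff.2 ha) (by simp [cut_g]) (m := 1) one_pos
  rw [Function.iterate_one, cw, if_neg (g_ne_iff.2 ha), S.invol] at this
  exact this

/-- if the triangle of the corner `c` is removed, the two neighbours of `c` in its fan are not
equivalent any more -/
theorem not_eqv_remove {S' S : Obj I} (h : S'.Le S) (hl : S.Linear) {c : Sd I}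
    (hc : S.g c ≠ c) (hc' : S.g (unrot c) ≠ unrot c) (ht : c.1 ∉ S'.F) :
    ¬ S'.Eqv (S.g (unrot c)) (rot (S.g c)) := by
  have h1 : S.g (S.g (unrot c)) ≠ S.g (unrot c) := g_ne_iff.2 hc'
  have h2 : S'.g (S.g (unrot c)) = S.g (unrot c) := by
    by_contra h3
    obtain ⟨h4, _⟩ := h.glued h3
    rw [S.invol] at h4
    have h5 := g_memF (S := S') h3
    rw [h4, unrot_fst] at h5
    exact ht h5
  have := not_eqv_iter h hl h1 h2 (m := 2) two_pos
  have e1 : S.cw (S.g (unrot c)) = c := by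
    rw [cw, if_neg h1, S.invol, rot_unrot]
  have e2 : S.cw^[2] (S.g (unrot c)) = rot (S.g c) := by
    rw [Function.iterate_succ_apply, e1, Function.iterate_one, cw, if_neg hc]
  rwa [e2] at this

/-! ### solutions -/

theorem Cov.subset {pt : Sd I → Pt} {R : Set Pt} {C D : Finset (Sd I)} {t : I}
    (h : Cov pt R C t) (hCD : C ⊆ D) : Cov pt R D t := fun p hp => by
  obtain ⟨c, hc, h1⟩ := h p hp
  exact ⟨c, hCD hc, h1⟩

theorem Cov.erase {S : Obj I} {pt : Sd I → Pt} (hg : S.Geo pt) {R : Set Pt} {C : Finset (Sd I)}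
    {t : I} (h : Cov pt R C t) {d d' : Sd I} (hd' : d' ∈ C) (hne : d ≠ d') (he : S.Eqv d d') :
    Cov pt R (C.erase d) t := fun p hp => by
  obtain ⟨c, hc, h1⟩ := h p hp
  by_cases hcd : c = d
  · subst hcd
    exact ⟨d', mem_erase.2 ⟨hne.symm, hd'⟩, by rw [← hg.pt_eq he]; exact h1⟩
  · exact ⟨c, mem_erase.2 ⟨hcd, hc⟩, h1⟩

/-- pushing a solution of a sub-object forward -/
theorem _root_.AG.Sol.transfer {S' S : Obj I} {pt : Sd I → Pt} {R : Set Pt}
    {W W' C : Finset (Sd I)} (h : S'.Le S) (hs : Sol S' pt R W' C)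
    (hW : ∀ w ∈ W, S.Hit C w) (hE : ∀ a ∈ S.E, S.Hit C a ∨ S.Hit C (rot a))
    (hD : ∀ t ∈ S.F, t ∉ S'.F → S.Noncore t → ∃ i, S.Hit C (t, i))
    (hC : ∀ t ∈ S.F, t ∉ S'.F → Cov pt R C t) : Sol S pt R W C where
  sub := hs.sub.trans fun a ha => by
    rw [mem_sides] at ha ⊢; exact h.F ha
  forced := hW
  ear := hE
  dom t ht := by
    by_cases h1 : t ∈ S'.F
    · obtain ⟨i, hi⟩ := hs.dom t (ht.mono h h1)
      exact ⟨i, hi.mono h⟩
    · exact hD t ht.1 h1 ht
  cov t ht := by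
    by_cases h1 : t ∈ S'.F
    · exact hs.cov t h1
    · exact hC t ht h1

/-- count once -/
theorem _root_.AG.Sol.erase {S : Obj I} {pt : Sd I → Pt} (hg : S.Geo pt) {R : Set Pt}
    {W C : Finset (Sd I)} (hs : Sol S pt R W C) {d d' : Sd I} (hd' : d' ∈ C) (hne : d ≠ d')
    (he : S.Eqv d d') : Sol S pt R W (C.erase d) where
  sub := (erase_subset _ _).trans hs.sub
  forced w hw := (hs.forced w hw).erase hd' hne he
  ear a ha := (hs.ear a ha).imp (fun h => h.erase hd' hne he) (fun h => h.erase hd' hne he)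
  dom t ht := by
    obtain ⟨i, hi⟩ := hs.dom t ht
    exact ⟨i, hi.erase hd' hne he⟩
  cov t ht := Cov.erase hg (hs.cov t ht) hd' hne he

/-- two forced copies of one visit give two different equivalent elements of the solution -/
theorem exists_dup {S' S : Obj I} {pt : Sd I → Pt} {R : Set Pt} {W' C : Finset (Sd I)}
    (h : S'.Le S) (hs : Sol S' pt R W' C) {w w' : Sd I} (hw : w ∈ W') (hw' : w' ∈ W')
    (hne : ¬ S'.Eqv w w') (he : S.Eqv w w') :
    ∃ d ∈ C, ∃ d' ∈ C, d ≠ d' ∧ S.Eqv d d' ∧ S.Eqv d w := by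
  obtain ⟨d, hd, h1⟩ := hs.forced w hw
  obtain ⟨d', hd', h2⟩ := hs.forced w' hw'
  refine ⟨d, hd, d', hd', ?_, ?_, h1.mono h⟩
  · rintro rfl
    exact hne (h1.symm.trans h2)
  · exact ((h1.mono h).trans he).trans (h2.mono h).symm

/-- a corner in the solution covers its own triangle -/
theorem Geo.cov_of_hit {S : Obj I} {pt : Sd I → Pt} (hg : S.Geo pt) {R : Set Pt}
    {C : Finset (Sd I)} {a : Sd I} (ha : a.1 ∈ S.F) (hR : tri pt a.1 ⊆ R) (hC : S.Hit C a) :
    Cov pt R C a.1 := hg.cov_of_hit' ha hR hC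

end Obj

end AG
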