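import Pool.Agent.AG.Red.Single
import Pool.Agent.AG.Red.GeoStub

/-!
# Project AG, block RED: 2.2, an object with a bridge
-/

namespace AG

open Finset

variable {I : Type} [DecidableEq I]

namespace Obj

private theorem bridge_even_glued (S : Obj I) : S.glued.card % 2 = 0 := by
  have h : ∑ _a ∈ S.glued, (1 : ZMod 2) = 0 := by
    refine Finset.sum_involution (fun a _ => S.g a) ?_ ?_ ?_ ?_
    · intro a ha
      decide
    · intro a ha _
      exact mem_glued.1 ha
    · intro a ha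
      exact g_mem_glued.2 ha
    · intro a ha
      exact S.invol a
  rw [Finset.sum_const, nsmul_eq_mul, mul_one, ZMod.natCast_eq_zero_iff] at h
  omega

private theorem bridge_N2_even (S : Obj I) (k : ℕ) : S.N2 k % 2 = 0 := by
  have h3 := card_vis_add_card_glued S
  have h4 := bridge_even_glued S
  simp only [N2]
  omega

/-- one side of a bridge is connected -/
private theorem bridge_conn_keep {S : Obj I} (hc : S.Conn) {X : Finset I} (hX : X ⊆ S.F)
    {a : Sd I} (hbd : S.bd X = {a}) : (S.keep X).Conn := by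
  have ha : a ∈ S.bd X := by rw [hbd]; exact mem_singleton_self a
  rw [mem_bd] at ha
  have hXF : X ≠ S.F := by
    rintro rfl
    exact ha.2.2 (g_memF ha.1)
  refine ⟨by rw [keep_F S hX]; exact ⟨a.1, ha.2.1⟩, fun Z hZ hne hZX => ?_⟩
  rw [keep_F S hX] at hZ hZX
  rw [keep_bd S hZ]
  by_contra hemp
  rw [not_nonempty_iff_eq_empty, filter_eq_empty_iff] at hemp
  by_cases haZ : a.1 ∈ Z
  · have hne' : (X \ Z).Nonempty := by
      rw [sdiff_nonempty]; exact fun h => hZX (subset_antisymm hZ h)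
    have hcF : X \ Z ≠ S.F := by
      intro h
      have h0 : a.1 ∈ X \ Z := by rw [h]; exact hX ha.2.1
      exact (mem_sdiff.1 h0).2 haZ
    obtain ⟨c, hcb⟩ := hc.2 (X \ Z) (sdiff_subset.trans hX) hne' hcF
    rw [mem_bd, mem_sdiff, mem_sdiff, not_and, not_not] at hcb
    obtain ⟨h1, ⟨h2, h3⟩, h4⟩ := hcb
    by_cases h5 : (S.g c).1 ∈ X
    · have h6 : S.g c ∈ S.bd Z := by
        rw [mem_bd, S.invol]
        exact ⟨fun h => h1 h.symm, h4 h5, h3⟩
      have h7 := hemp h6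
      rw [S.invol] at h7
      exact h7 h2
    · have h6 : c ∈ S.bd X := mem_bd.2 ⟨h1, h2, h5⟩
      rw [hbd, mem_singleton] at h6
      rw [h6] at h3
      exact h3 haZ
  · obtain ⟨c, hcb⟩ := hc.2 Z (hZ.trans hX) hne
      (fun h => hXF (subset_antisymm hX (h ▸ hZ)))
    have h5 := hemp hcb
    have h6 : c ∈ S.bd X := by
      rw [mem_bd] at hcb ⊢
      exact ⟨hcb.1, hZ hcb.2.1, h5⟩
    rw [hbd, mem_singleton] at h6
    rw [mem_bd, h6] at hcb
    exact haZ hcb.2.1

private theorem bridge_card_glued {S : Obj I} {X : Finset I} {a : Sd I} (ha : a ∈ S.bd X) :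
    (S.keep X).glued.card < S.glued.card := by
  rw [mem_bd] at ha
  refine card_lt_card ⟨fun c hc => ?_, fun h => ?_⟩
  · rw [mem_glued] at hc ⊢
    exact ((keep_le S X).glued hc).2
  · have h1 := h (mem_glued.2 ha.1)
    rw [mem_glued, keep_g, if_neg (fun h2 => ha.2.2 h2.2)] at h1
    exact h1 rfl

/-- the union of solutions of the two parts is a solution -/
private theorem bridge_union {S : Obj I} {pt : Sd I → Pt} {R : Set Pt} {X : Finset I}
    (hX : X ⊆ S.F) {W W1 W2 C1 C2 : Finset (Sd I)} (hWs : W ⊆ S.sides)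
    (h1 : Sol (S.keep X) pt R W1 C1) (h2 : Sol (S.keep (S.F \ X)) pt R W2 C2)
    (hW1 : ∀ w ∈ W, w.1 ∈ X → w ∈ W1) (hW2 : ∀ w ∈ W, w.1 ∈ S.F \ X → w ∈ W2) :
    Sol S pt R W (C1 ∪ C2) := by
  have l1 := keep_le S X
  have l2 := keep_le S (S.F \ X)
  have f1 := keep_F S hX
  have f2 : (S.keep (S.F \ X)).F = S.F \ X := keep_F S sdiff_subset
  have k1 : ∀ c, (S.keep X).Hit C1 c → S.Hit (C1 ∪ C2) c := fun c h =>
    (h.mono l1).subset subset_union_left
  have k2 : ∀ c, (S.keep (S.F \ X)).Hit C2 c → S.Hit (C1 ∪ C2) c := fun c h =>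
    (h.mono l2).subset subset_union_right
  have hmem : ∀ t ∈ S.F, t ∉ X → t ∈ S.F \ X := fun t ht h => mem_sdiff.2 ⟨ht, h⟩
  refine ⟨union_subset (fun c hc => ?_) (fun c hc => ?_), fun w hw => ?_, fun c hc => ?_,
    fun t ht => ?_, fun t ht => ?_⟩
  · have := mem_sides.1 (h1.sub hc)
    exact mem_sides.2 (l1.F this)
  · have := mem_sides.1 (h2.sub hc)
    exact mem_sides.2 (l2.F this)
  · by_cases h : w.1 ∈ X
    · exact k1 _ (h1.forced w (hW1 w hw h))
    · exact k2 _ (h2.forced w (hW2 w hw (hmem _ (mem_sides.1 (hWs hw)) h)))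
  · by_cases h : c.1 ∈ X
    · exact (h1.ear c (mem_filter.2 ⟨hc, h⟩)).imp (k1 _) (k1 _)
    · exact (h2.ear c (mem_filter.2 ⟨hc, hmem _ (S.earF c hc) h⟩)).imp (k2 _) (k2 _)
  · by_cases h : t ∈ X
    · obtain ⟨i, hi⟩ := h1.dom t (ht.mono l1 (by rw [f1]; exact h))
      exact ⟨i, k1 _ hi⟩
    · obtain ⟨i, hi⟩ := h2.dom t (ht.mono l2 (by rw [f2]; exact hmem _ ht.1 h))
      exact ⟨i, k2 _ hi⟩
  · by_cases h : t ∈ X
    · exact Cov.subset (h1.cov t (by rw [f1]; exact h)) subset_union_left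
    · exact Cov.subset (h2.cov t (by rw [f2]; exact hmem _ ht h)) subset_union_right

/-- the part `X` has `N` divisible by 3, the solution of the other part contains an end of the
bridge: force this end in `X` and count it once -/
private theorem bridge_force {S : Obj I} {pt : Sd I → Pt} {R : Set Pt} (hg : S.Geo pt)
    (hc : S.Conn) (hR : ∀ t ∈ S.F, tri pt t ⊆ R) (ih : IH I R S.glued.card) {X : Finset I}
    (hX : X ⊆ S.F) {a : Sd I} (hbd : S.bd X = {a}) {W W2 C2 : Finset (Sd I)} (hW : W ⊆ S.sides)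
    (h2 : Sol (S.keep (S.F \ X)) pt R W2 C2) (hW2 : ∀ w ∈ W, w.1 ∈ S.F \ X → w ∈ W2)
    {u v : Sd I} (hu : u.1 ∈ X) (huv : S.Eqv u v) (hv : S.Hit C2 v)
    (h6 : (S.keep X).N2 (W.filter (fun w => w.1 ∈ X)).card % 6 = 0) :
    ∃ C, Sol S pt R W C ∧
      6 * C.card + 6 ≤ (S.keep X).N2 (W.filter (fun w => w.1 ∈ X)).card + 6 * C2.card := by
  have ha : a ∈ S.bd X := by rw [hbd]; exact mem_singleton_self a
  have f1 := keep_F S hX
  obtain ⟨C1, h1, hc1⟩ := ih (S.keep X) pt (hg.sub (keep_le S X)) (bridge_conn_keep hc hX hbd)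
    (fun t ht => hR t ((keep_le S X).F ht)) (bridge_card_glued ha)
    (insert u (W.filter (fun w => w.1 ∈ X))) (by
      intro w hw
      rw [mem_sides, f1]
      rcases mem_insert.1 hw with rfl | hw
      · exact hu
      · exact (mem_filter.1 hw).2)
  have hs : Sol S pt R W (C1 ∪ C2) := bridge_union hX hW h1 h2
    (fun w hw h => mem_insert_of_mem (mem_filter.2 ⟨hw, h⟩)) hW2
  obtain ⟨d, hd, hdu⟩ := (h1.forced u (mem_insert_self _ _)).mono (keep_le S X)
  obtain ⟨d', hd', hdv⟩ := hv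
  have hne : d ≠ d' := by
    rintro rfl
    have e1 := mem_sides.1 (h1.sub hd)
    have e2 := mem_sides.1 (h2.sub hd')
    rw [f1] at e1
    rw [keep_F S sdiff_subset] at e2
    exact (mem_sdiff.1 e2).2 e1
  refine ⟨(C1 ∪ C2).erase d, hs.erase hg (mem_union_right _ hd') hne
    ((hdu.trans huv).trans hdv.symm), ?_⟩
  have k1 : ((C1 ∪ C2).erase d).card + 1 = (C1 ∪ C2).card :=
    card_erase_add_one (mem_union_left _ hd)
  have k2 := card_union_le C1 C2
  have k3 := card_insert_le u (W.filter (fun w => w.1 ∈ X))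
  simp only [N2] at hc1 h6 ⊢
  omega

/-- the part `X` has `N` divisible by 3: add an ear to the other part -/
private theorem bridge_ear {S : Obj I} {pt : Sd I → Pt} {R : Set Pt} (hg : S.Geo pt)
    (hc : S.Conn) (hR : ∀ t ∈ S.F, tri pt t ⊆ R) (ih : IH I R S.glued.card) {X : Finset I}
    (hX : X ⊆ S.F) {a : Sd I} (hbd : S.bd X = {a}) {W : Finset (Sd I)} (hW : W ⊆ S.sides)
    (h6 : (S.keep X).N2 (W.filter (fun w => w.1 ∈ X)).card % 6 = 0) : P S pt R W := by
  have ha : a ∈ S.bd X := by rw [hbd]; exact mem_singleton_self a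
  have ha' := mem_bd.1 ha
  have hbY : S.bd (S.F \ X) = {S.g a} := by
    rw [bd_sdiff, inter_eq_right.2 hX, hbd, image_singleton]
  have hbm : S.g a ∈ S.bd (S.F \ X) := by rw [hbY]; exact mem_singleton_self _
  have hb' := mem_bd.1 hbm
  have f2 : (S.keep (S.F \ X)).F = S.F \ X := keep_F S sdiff_subset
  have hbE : S.g a ∉ (S.keep (S.F \ X)).E := by
    intro h
    have h1 := S.earFree _ (mem_filter.1 h).1
    exact hb'.1 h1
  have hE2 : ∀ c ∈ insert (S.g a) (S.keep (S.F \ X)).E, c.1 ∈ (S.keep (S.F \ X)).F ∧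
      (S.keep (S.F \ X)).g c = c := by
    intro c hc'
    rcases mem_insert.1 hc' with rfl | hc'
    · refine ⟨by rw [f2]; exact hb'.2.1, ?_⟩
      rw [keep_g, if_neg (fun h => hb'.2.2 h.2)]
    · exact ⟨(S.keep (S.F \ X)).earF c hc', (S.keep (S.F \ X)).earFree c hc'⟩
  obtain ⟨S2, hS2⟩ : ∃ S2, S2 = (S.keep (S.F \ X)).setE _ hE2 := ⟨_, rfl⟩
  have hle2 : S2.Le (S.keep (S.F \ X)) := by rw [hS2]; exact setE_le _ _ _
  have hle : S2.Le S := hle2.trans (keep_le _ _)
  have hF2 : S2.F = S.F \ X := by rw [hS2]; exact f2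
  have hconn2 : S2.Conn := by
    rw [hS2]; exact bridge_conn_keep hc sdiff_subset hbY
  have hgl2 : S2.glued.card < S.glued.card := by
    rw [hS2]; exact bridge_card_glued hbm
  obtain ⟨C2, h2, hc2⟩ := ih S2 pt (hg.sub hle) hconn2 (fun t ht => hR t (hle.F ht)) hgl2
    (W.filter (fun w => w.1 ∈ S.F \ X)) (by
      intro w hw
      rw [mem_sides, hF2]
      exact (mem_filter.1 hw).2)
  have hear := h2.ear (S.g a) (by rw [hS2]; exact mem_insert_self _ _)
  have hs2 : Sol (S.keep (S.F \ X)) pt R (W.filter (fun w => w.1 ∈ S.F \ X)) C2 := by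
    refine Sol.transfer hle2 h2 (fun w hw => (h2.forced w hw).mono hle2) (fun e he => ?_)
      (fun t ht ht' => absurd (by rw [hF2, ← f2]; exact ht) ht')
      (fun t ht ht' => absurd (by rw [hF2, ← f2]; exact ht) ht')
    exact (h2.ear e (by rw [hS2]; exact mem_insert_of_mem he)).imp
      (fun h => h.mono hle2) (fun h => h.mono hle2)
  have hN2 : S2.N2 (W.filter (fun w => w.1 ∈ S.F \ X)).card
      = (S.keep (S.F \ X)).N2 (W.filter (fun w => w.1 ∈ S.F \ X)).card + 2 := by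
    have e1 : S2.F = (S.keep (S.F \ X)).F := by rw [hS2]; rfl
    have e2 : S2.vis = (S.keep (S.F \ X)).vis := by rw [hS2]; rfl
    have e3 : S2.E.card = (S.keep (S.F \ X)).E.card + 1 := by
      rw [hS2]; exact card_insert_of_notMem hbE
    simp only [N2, e1, e2, e3]
    omega
  have hadd := N2_keep_add S hX (W.filter (fun w => w.1 ∈ X)).card
    (W.filter (fun w => w.1 ∈ S.F \ X)).card
  have hWc : (W.filter (fun w => w.1 ∈ X)).card + (W.filter (fun w => w.1 ∈ S.F \ X)).card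
      = W.card := by
    rw [← Finset.card_filter_add_card_filter_not (s := W) (fun w => w.1 ∈ X)]
    congr 2
    refine filter_congr fun w hw => ?_
    simp [mem_sides.1 (hW hw)]
  rw [hWc, hbd, card_singleton] at hadd
  have hW2 : ∀ w ∈ W, w.1 ∈ S.F \ X → w ∈ W.filter (fun w => w.1 ∈ S.F \ X) :=
    fun w hw h => mem_filter.2 ⟨hw, h⟩
  rcases hear with h | h
  · obtain ⟨C, hC, hCc⟩ := bridge_force hg hc hR ih hX hbd hW hs2 hW2 (u := rot a)
      (v := S.g a) ha'.2.1 (Eqv.of_glued' ha'.1) (h.mono hle) h6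
    exact ⟨C, hC, by omega⟩
  · obtain ⟨C, hC, hCc⟩ := bridge_force hg hc hR ih hX hbd hW hs2 hW2 (u := a)
      (v := rot (S.g a)) ha'.2.1 (Eqv.of_glued ha'.1) (h.mono hle) h6
    exact ⟨C, hC, by omega⟩

theorem P_bridge {S : Obj I} {pt : Sd I → Pt} {R : Set Pt} (hg : S.Geo pt) (hc : S.Conn)
    (hR : ∀ t ∈ S.F, tri pt t ⊆ R) (ih : IH I R S.glued.card) {a : Sd I} (ha : S.Bridge a)
    {W : Finset (Sd I)} (hW : W ⊆ S.sides) (hr : S.Reduced W) : P S pt R W := by
  obtain ⟨X, hX, hbd⟩ := ha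
  by_cases h1 : (S.keep X).N2 (W.filter (fun w => w.1 ∈ X)).card % 6 = 0
  · exact bridge_ear hg hc hR ih hX hbd hW h1
  have hbY : S.bd (S.F \ X) = {S.g a} := by
    rw [bd_sdiff, inter_eq_right.2 hX, hbd, image_singleton]
  by_cases h2 : (S.keep (S.F \ X)).N2 (W.filter (fun w => w.1 ∈ S.F \ X)).card % 6 = 0
  · exact bridge_ear hg hc hR ih sdiff_subset hbY hW h2
  have ha : a ∈ S.bd X := by rw [hbd]; exact mem_singleton_self a
  have hb : S.g a ∈ S.bd (S.F \ X) := by rw [hbY]; exact mem_singleton_self _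
  obtain ⟨C1, hs1, hc1⟩ := ih (S.keep X) pt (hg.sub (keep_le S X)) (bridge_conn_keep hc hX hbd)
    (fun t ht => hR t ((keep_le S X).F ht)) (bridge_card_glued ha)
    (W.filter (fun w => w.1 ∈ X)) (by
      intro w hw
      rw [mem_sides, keep_F S hX]
      exact (mem_filter.1 hw).2)
  obtain ⟨C2, hs2, hc2⟩ := ih (S.keep (S.F \ X)) pt (hg.sub (keep_le S _))
    (bridge_conn_keep hc sdiff_subset hbY)
    (fun t ht => hR t ((keep_le S _).F ht)) (bridge_card_glued hb)
    (W.filter (fun w => w.1 ∈ S.F \ X)) (by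
      intro w hw
      rw [mem_sides, keep_F S sdiff_subset]
      exact (mem_filter.1 hw).2)
  have hadd := N2_keep_add S hX (W.filter (fun w => w.1 ∈ X)).card
    (W.filter (fun w => w.1 ∈ S.F \ X)).card
  have hWc : (W.filter (fun w => w.1 ∈ X)).card + (W.filter (fun w => w.1 ∈ S.F \ X)).card
      = W.card := by
    rw [← Finset.card_filter_add_card_filter_not (s := W) (fun w => w.1 ∈ X)]
    congr 2
    refine filter_congr fun w hw => ?_
    simp [mem_sides.1 (hW hw)]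
  rw [hWc, hbd, card_singleton] at hadd
  have e1 := bridge_N2_even (S.keep X) (W.filter (fun w => w.1 ∈ X)).card
  have e2 := bridge_N2_even (S.keep (S.F \ X)) (W.filter (fun w => w.1 ∈ S.F \ X)).card
  have k := card_union_le C1 C2
  exact ⟨C1 ∪ C2, bridge_union hX hW hs1 hs2 (fun w hw h => mem_filter.2 ⟨hw, h⟩)
    (fun w hw h => mem_filter.2 ⟨hw, h⟩), by omega⟩

end Obj

end AG
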