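import Pool.Agent.AG.Red.Main

/-!
# Project AG, block RED: 2.6, flips of a minimal counterexample
-/

namespace AG

open Finset

variable {I : Type} [DecidableEq I]

/-- the corner of the old object at the vertex of the new corner `c` (in the same visit) -/
def pushC (a b c : Sd I) : Sd I :=
  if c = rot a then unrot b else if c = rot b then unrot a else c

/-- a corner of the new object at the vertex of the old corner `c` -/
def pullC (a b c : Sd I) : Sd I :=
  if c = rot a then b else if c = rot b then a else c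

section

variable {a b : Sd I}

theorem pushC_ra : pushC a b (rot a) = unrot b := by simp [pushC]

theorem pushC_rb (h : b.1 ≠ a.1) : pushC a b (rot b) = unrot a := by
  have h2 : rot b ≠ rot a := ne_of_fst h
  simp [pushC, h2]

theorem pushC_other {c : Sd I} (h1 : c ≠ rot a) (h2 : c ≠ rot b) : pushC a b c = c := by
  simp [pushC, h1, h2]

theorem pullC_ra : pullC a b (rot a) = b := by simp [pullC]

theorem pullC_rb (h : b.1 ≠ a.1) : pullC a b (rot b) = a := by
  have h2 : rot b ≠ rot a := ne_of_fst h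
  simp [pullC, h2]

theorem pullC_other {c : Sd I} (h1 : c ≠ rot a) (h2 : c ≠ rot b) : pullC a b c = c := by
  simp [pullC, h1, h2]

theorem pushC_fst (h : b.1 ≠ a.1) (c : Sd I) :
    (pushC a b c).1 = c.1 ∨ ((pushC a b c).1 = a.1 ∨ (pushC a b c).1 = b.1) := by
  by_cases h1 : c = rot a
  · subst h1; rw [pushC_ra]; exact Or.inr (Or.inr rfl)
  by_cases h2 : c = rot b
  · subst h2; rw [pushC_rb h]; exact Or.inr (Or.inl rfl)
  rw [pushC_other h1 h2]; exact Or.inl rfl

theorem pushC_rot_sigF (h : b.1 ≠ a.1) {f : Sd I} (h1 : f ≠ a) (h2 : f ≠ b) :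
    pushC a b (rot (sigF a b f)) = rot f := by
  by_cases k1 : f = rot a
  · subst k1; rw [sigF_ra, pushC_rb h, rot_rot]
  by_cases k2 : f = rot b
  · subst k2; rw [sigF_rb h, pushC_ra, rot_rot]
  rw [sigF_other h1 k1 h2 k2]
  exact pushC_other (fun e => h1 (rot_injective e)) (fun e => h2 (rot_injective e))

theorem pullC_eq_sigF (h : b.1 ≠ a.1) {f : Sd I} (h1 : f ≠ a) (h2 : f ≠ b) :
    pullC a b f = sigF a b f := by
  by_cases k1 : f = rot a
  · subst k1; rw [sigF_ra, pullC_ra]
  by_cases k2 : f = rot b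
  · subst k2; rw [sigF_rb h, pullC_rb h]
  rw [sigF_other h1 k1 h2 k2, pullC_other k1 k2]

theorem sigF_mem {X : Finset I} (h : b.1 ≠ a.1) (hX : a.1 ∈ X ↔ b.1 ∈ X) (c : Sd I) :
    (sigF a b c).1 ∈ X ↔ c.1 ∈ X := by
  by_cases k1 : c = rot a
  · subst k1; rw [sigF_ra, rot_fst]; exact hX.symm
  by_cases k2 : c = rot b
  · subst k2; rw [sigF_rb h, rot_fst]; exact hX
  rw [sigF_fst_other k1 k2]

end

namespace Obj

/-- the two old corners at `x` and at `y` which have disappeared -/
theorem flip_eqv_old {S : Obj I} {a : Sd I} (h : S.Flippable a) :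
    S.Eqv (rot (S.g a)) a ∧ S.Eqv (rot a) (S.g a) :=
  ⟨(Eqv.of_glued h.glued).symm, Eqv.of_glued' h.glued⟩

theorem pushC_sigF_eqv {S : Obj I} {a : Sd I} (h : S.Flippable a) {e : Sd I} (h1 : e ≠ a)
    (h2 : e ≠ S.g a) : S.Eqv (pushC a (S.g a) (sigF a (S.g a) e)) e := by
  by_cases k1 : e = rot a
  · subst k1
    rw [sigF_ra, pushC_other (ne_of_fst h.ne) (rot_ne _).symm]
    exact (flip_eqv_old h).2.symm
  by_cases k2 : e = rot (S.g a)
  · subst k2
    rw [sigF_rb h.ne, pushC_other (rot_ne _).symm (ne_of_fst h.ne.symm)]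
    exact (flip_eqv_old h).1.symm
  rw [sigF_other h1 k1 h2 k2, pushC_other k1 k2]
  exact Eqv.refl _ _

/-- visits are unchanged: equivalent corners of the flip are equivalent in `S` -/
theorem flip_eqv {S : Obj I} {a : Sd I} (h : S.Flippable a) {c d : Sd I}
    (hcd : (S.flip a h).Eqv c d) : S.Eqv (pushC a (S.g a) c) (pushC a (S.g a) d) := by
  induction hcd with
  | rel x y hxy =>
    obtain ⟨h1, rfl⟩ := hxy
    obtain ⟨e, rfl⟩ : ∃ e, sigF a (S.g a) e = x := ⟨sigB a (S.g a) x, sigF_sigB h.ne x⟩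
    rw [flip_g_sig]
    rw [flip_g_sig] at h1
    have hge : S.g e ≠ e := fun e' => h1 (by rw [e'])
    by_cases k1 : e = a
    · rw [k1, sigF_a, pushC_ra, sigF_b h.ne, rot_rot,
        pushC_other (c := unrot (S.g a)) (ne_of_fst h.ne) (unrot_ne_rot _)]
      exact Eqv.refl _ _
    by_cases k2 : e = S.g a
    · rw [k2, S.invol, sigF_b h.ne, pushC_rb h.ne, sigF_a, rot_rot,
        pushC_other (unrot_ne_rot _) (ne_of_fst h.ne.symm)]
      exact Eqv.refl _ _
    have m1 : S.g e ≠ a := fun e' => k2 (by rw [← e', S.invol])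
    have m2 : S.g e ≠ S.g a := fun e' => k1 (S.g_injective e')
    rw [pushC_rot_sigF h.ne m1 m2]
    exact (pushC_sigF_eqv h k1 k2).trans (Eqv.of_glued hge)
  | refl x => exact Eqv.refl _ _
  | symm x y _ ih => exact ih.symm
  | trans x y z _ _ ih1 ih2 => exact ih1.trans ih2

theorem flip_eqv_new {S : Obj I} {a : Sd I} (h : S.Flippable a) :
    (S.flip a h).Eqv (unrot (S.g a)) (rot a) ∧ (S.flip a h).Eqv (unrot a) (rot (S.g a)) := by
  have h1 := flip_g_rot h
  have h2 := flip_g_rot' h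
  constructor
  · have h3 : (S.flip a h).g (rot a) ≠ rot a := by
      rw [h1]; exact ne_of_fst h.ne
    have := Eqv.of_glued h3
    rw [h1, rot_rot] at this
    exact this.symm
  · have h3 : (S.flip a h).g (rot (S.g a)) ≠ rot (S.g a) := by
      rw [h2]; exact ne_of_fst h.ne.symm
    have := Eqv.of_glued h3
    rw [h2, rot_rot] at this
    exact this.symm

theorem pullC_rot_eqv {S : Obj I} {a : Sd I} (h : S.Flippable a) {f : Sd I} (h1 : f ≠ a)
    (h2 : f ≠ S.g a) :
    (S.flip a h).Eqv (pullC a (S.g a) (rot f)) (rot (sigF a (S.g a) f)) := by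
  by_cases k1 : f = rot a
  · subst k1
    rw [sigF_ra, rot_rot, pullC_other (unrot_ne_rot _) (ne_of_fst h.ne.symm)]
    exact (flip_eqv_new h).2
  by_cases k2 : f = rot (S.g a)
  · subst k2
    rw [sigF_rb h.ne, rot_rot, pullC_other (c := unrot (S.g a)) (ne_of_fst h.ne) (unrot_ne_rot _)]
    exact (flip_eqv_new h).1
  rw [sigF_other h1 k1 h2 k2,
    pullC_other (fun e => h1 (rot_injective e)) (fun e => h2 (rot_injective e))]
  exact Eqv.refl _ _

theorem pull_eqv {S : Obj I} {a : Sd I} (h : S.Flippable a) {c d : Sd I} (hcd : S.Eqv c d) :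
    (S.flip a h).Eqv (pullC a (S.g a) c) (pullC a (S.g a) d) := by
  induction hcd with
  | rel x y hxy =>
    obtain ⟨h1, rfl⟩ := hxy
    by_cases k1 : x = a
    · rw [k1, pullC_rb h.ne, pullC_other (rot_ne _).symm (ne_of_fst h.ne.symm)]
      exact Eqv.refl _ _
    by_cases k2 : x = S.g a
    · rw [k2, S.invol, pullC_ra, pullC_other (ne_of_fst h.ne) (rot_ne _).symm]
      exact Eqv.refl _ _
    have m1 : S.g x ≠ a := fun e' => k2 (by rw [← e', S.invol])
    have m2 : S.g x ≠ S.g a := fun e' => k1 (S.g_injective e')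
    have h3 : (S.flip a h).g (sigF a (S.g a) x) ≠ sigF a (S.g a) x := by
      rw [flip_g_sig]
      exact fun e => h1 ((sig a (S.g a) h.ne).injective e)
    have h4 := Eqv.of_glued h3
    rw [flip_g_sig] at h4
    rw [pullC_eq_sigF h.ne k1 k2]
    exact h4.trans (pullC_rot_eqv h m1 m2).symm
  | refl x => exact Eqv.refl _ _
  | symm x y _ ih => exact ih.symm
  | trans x y z _ _ ih1 ih2 => exact ih1.trans ih2

theorem pull_push_eqv {S : Obj I} {a : Sd I} (h : S.Flippable a) (c : Sd I) :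
    (S.flip a h).Eqv (pullC a (S.g a) (pushC a (S.g a) c)) c := by
  by_cases k1 : c = rot a
  · subst k1
    rw [pushC_ra, pullC_other (c := unrot (S.g a)) (ne_of_fst h.ne) (unrot_ne_rot _)]
    exact (flip_eqv_new h).1
  by_cases k2 : c = rot (S.g a)
  · subst k2
    rw [pushC_rb h.ne, pullC_other (unrot_ne_rot _) (ne_of_fst h.ne.symm)]
    exact (flip_eqv_new h).2
  rw [pushC_other k1 k2, pullC_other k1 k2]
  exact Eqv.refl _ _

/-- and conversely -/
theorem flip_eqv' {S : Obj I} {a : Sd I} (h : S.Flippable a) {c d : Sd I}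
    (hcd : S.Eqv (pushC a (S.g a) c) (pushC a (S.g a) d)) : (S.flip a h).Eqv c d :=
  (pull_push_eqv h c).symm.trans ((pull_eqv h hcd).trans (pull_push_eqv h d))

theorem flip_conn {S : Obj I} {a : Sd I} (h : S.Flippable a) (hc : S.Conn) :
    (S.flip a h).Conn := by
  refine ⟨hc.1, fun X hX hne hXF => ?_⟩
  by_cases hab : a.1 ∈ X ↔ (S.g a).1 ∈ X
  · obtain ⟨e, he⟩ := hc.2 X hX hne hXF
    rw [mem_bd] at he
    refine ⟨sigF a (S.g a) e, ?_⟩
    rw [mem_bd, flip_g_sig]
    refine ⟨fun e' => he.1 ((sig a (S.g a) h.ne).injective e'), ?_, ?_⟩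
    · exact (sigF_mem h.ne hab e).2 he.2.1
    · exact fun h' => he.2.2 ((sigF_mem h.ne hab (S.g e)).1 h')
  · by_cases h1 : a.1 ∈ X
    · have h2 : (S.g a).1 ∉ X := fun h2 => hab ⟨fun _ => h2, fun _ => h1⟩
      refine ⟨rot a, ?_⟩
      rw [mem_bd, flip_g_rot]
      exact ⟨ne_of_fst h.ne, h1, h2⟩
    · have h2 : (S.g a).1 ∈ X := by
        by_contra h2
        exact hab ⟨fun h => absurd h h1, fun h => absurd h h2⟩
      refine ⟨rot (S.g a), ?_⟩
      rw [mem_bd, flip_g_rot']
      exact ⟨ne_of_fst h.ne.symm, h2, h1⟩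

theorem flip_glued_card {S : Obj I} {a : Sd I} (h : S.Flippable a) :
    (S.flip a h).glued.card = S.glued.card := by
  have : (S.flip a h).glued = S.glued.map (sig a (S.g a) h.ne).toEmbedding := by
    ext c
    obtain ⟨e, rfl⟩ : ∃ e, sigF a (S.g a) e = c := ⟨sigB a (S.g a) c, sigF_sigB h.ne c⟩
    rw [mem_glued, flip_g_sig, Finset.mem_map]
    constructor
    · intro h1
      exact ⟨e, mem_glued.2 fun e' => h1 (by rw [e']), rfl⟩
    · rintro ⟨d, hd, h1⟩
      have h2 : d = e := (sig a (S.g a) h.ne).injective h1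
      subst h2
      rw [mem_glued] at hd
      exact fun e' => hd ((sig a (S.g a) h.ne).injective e')
  rw [this, Finset.card_map]

theorem flip_N2 {S : Obj I} {a : Sd I} (h : S.Flippable a) (k : ℕ) :
    (S.flip a h).N2 k = S.N2 k := by
  have h1 := card_vis_add_card_glued S
  have h2 := card_vis_add_card_glued (S.flip a h)
  rw [flip_glued_card h, flip_F] at h2
  have h3 := flip_E_card h
  unfold N2
  rw [flip_F, h3]
  omega

/-- FLIP LEMMA -/
theorem P_of_flip {S : Obj I} {pt : Sd I → Pt} {R : Set Pt} (hg : S.Geo pt) (hc : S.Conn)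
    (hb : S.Bridgeless) (h2 : 2 ≤ S.F.card) {a : Sd I} (hU : S.IsU pt a) (h : S.Flippable a)
    (hP : P (S.flip a h) (flipPt pt a (S.g a)) R ∅) : P S pt R ∅ := by
  obtain ⟨C, hC, hcard⟩ := hP
  have hit : ∀ {c : Sd I}, (S.flip a h).Hit C c →
      S.Hit (C.image (pushC a (S.g a))) (pushC a (S.g a) c) := by
    rintro c ⟨d, hd, h1⟩
    exact ⟨_, mem_image_of_mem _ hd, flip_eqv h h1⟩
  refine ⟨C.image (pushC a (S.g a)), ⟨?_, ?_, ?_, ?_, ?_⟩, ?_⟩
  · intro c hc
    obtain ⟨d, hd, rfl⟩ := mem_image.1 hc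
    have h3 := mem_sides.1 (hC.sub hd)
    rw [flip_F] at h3
    rw [mem_sides]
    rcases pushC_fst h.ne d with h4 | h4 | h4
    · rw [h4]; exact h3
    · rw [h4]; exact S.memF _ h.glued
    · rw [h4]; exact g_memF h.glued
  · intro w hw; exact absurd hw (notMem_empty w)
  · intro e he
    have hge := S.earFree e he
    have k1 : e ≠ a := fun e' => h.glued (by rw [← e', hge])
    have k2 : e ≠ S.g a := fun e' => by
      have h5 : S.g (S.g a) = S.g a := by rw [← e', hge]
      exact g_ne_iff.2 h.glued h5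
    rcases hC.ear _ ((flip_E h e).2 he) with h3 | h3
    · exact Or.inl ((hit h3).eqv (pushC_sigF_eqv h k1 k2))
    · right
      have := hit h3
      rwa [pushC_rot_sigF h.ne k1 k2] at this
  · intro t ht
    exact absurd ht (Bridgeless.not_noncore hc hb h2 t)
  · exact AG.Geo.cov_unflip hg hU hC.cov
  · calc 6 * (C.image (pushC a (S.g a))).card ≤ 6 * C.card := by
          have := card_image_le (s := C) (f := pushC a (S.g a))
          omega
      _ ≤ (S.flip a h).N2 (∅ : Finset (Sd I)).card := hcard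
      _ = S.N2 (∅ : Finset (Sd I)).card := flip_N2 h _

/-- 2.6: the flip of a minimal counterexample is a minimal counterexample -/
theorem Cex.flip {S : Obj I} {pt : Sd I → Pt} {R : Set Pt} (hC : Cex S pt R) {a : Sd I}
    (hU : S.IsU pt a) (h : S.Flippable a) :
    Cex (S.flip a h) (flipPt pt a (S.g a)) R where
  geo := AG.Geo.geo_flip hC.geo hU h
  conn := flip_conn h hC.conn
  sub := AG.Geo.tri_flip_subset hC.geo hU hC.sub
  ih := by rw [flip_glued_card h]; exact hC.ih
  bad hP := hC.bad (P_of_flip hC.geo hC.conn hC.bridgeless hC.two_le hU h hP)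

end Obj

end AG
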