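import Pool.Agent.AG.Red.Basic

/-!
# Project AG, block RED: removing triangles from a bridgeless connected object, part A
-/

namespace AG

open Finset

variable {I : Type} [DecidableEq I]

namespace Obj

/-- if at most three glued sides leave `M`, the rest of a bridgeless connected object is
connected -/
theorem Conn.remove {S : Obj I} (hc : S.Conn) (hb : S.Bridgeless) {M : Finset I} (hM : M ⊆ S.F)
    (hne : M ≠ S.F) (h3 : (S.bd M).card ≤ 3) : (S.keep (S.F \ M)).Conn := by
  have hKF : (S.keep (S.F \ M)).F = S.F \ M := keep_F S sdiff_subset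
  refine ⟨?_, ?_⟩
  · rw [hKF, sdiff_nonempty]
    intro h
    exact hne (subset_antisymm hM h)
  · rw [hKF]
    intro X hX hXne hXY
    rw [keep_bd S hX]
    by_contra hemp
    rw [not_nonempty_iff_eq_empty, filter_eq_empty_iff] at hemp
    have hXF : X ⊆ S.F := hX.trans sdiff_subset
    have hXM : ∀ t ∈ X, t ∉ M := fun t ht => (mem_sdiff.1 (hX ht)).2
    -- partners of the boundary of `X` are in `M`
    have hXp : ∀ a ∈ S.bd X, (S.g a).1 ∈ M := by
      intro a ha
      by_contra hn
      exact hemp ha (mem_sdiff.2 ⟨g_memF (mem_bd.1 ha).1, hn⟩)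
    let Z : Finset I := (S.F \ M) \ X
    have hZF : Z ⊆ S.F := sdiff_subset.trans sdiff_subset
    have hZp : ∀ a ∈ S.bd Z, (S.g a).1 ∈ M := by
      intro a ha
      obtain ⟨h1, h2, h4⟩ := mem_bd.1 ha
      by_contra hn
      have h5 : (S.g a).1 ∈ S.F \ M := mem_sdiff.2 ⟨g_memF h1, hn⟩
      have h6 : (S.g a).1 ∈ X := by
        by_contra h7
        exact h4 (mem_sdiff.2 ⟨h5, h7⟩)
      have h8 : S.g a ∈ S.bd X := by
        rw [mem_bd, S.invol]
        exact ⟨(fun h => h1 h.symm), h6, (mem_sdiff.1 h2).2⟩
      have h9 := hXp _ h8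
      rw [S.invol] at h9
      exact (mem_sdiff.1 (mem_sdiff.1 h2).1).2 h9
    have hXneF : X ≠ S.F := by
      intro h
      apply hXY
      refine subset_antisymm hX ?_
      rw [h]
      exact sdiff_subset
    have hZne : Z.Nonempty := by
      rw [sdiff_nonempty]
      intro h
      exact hXY (subset_antisymm hX h)
    have hZneF : Z ≠ S.F := by
      intro h
      obtain ⟨t, ht⟩ := hXne
      have h1 : t ∈ Z := by
        rw [h]
        exact hXF ht
      exact (mem_sdiff.1 h1).2 ht
    have c1 := hb.two_le hXF (hc.2 X hXF hXne hXneF)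
    have c2 := hb.two_le hZF (hc.2 Z hZF hZne hZneF)
    have hdisj : Disjoint (S.bd X) (S.bd Z) := by
      rw [disjoint_left]
      intro a ha hb'
      exact (mem_sdiff.1 (mem_bd.1 hb').2.1).2 (mem_bd.1 ha).2.1
    have hsub : (S.bd X ∪ S.bd Z).image S.g ⊆ S.bd M := by
      intro b hb'
      obtain ⟨a, ha, rfl⟩ := mem_image.1 hb'
      rcases mem_union.1 ha with ha | ha
      · rw [mem_bd, S.invol]
        exact ⟨fun h => (mem_bd.1 ha).1 h.symm, hXp a ha, hXM _ (mem_bd.1 ha).2.1⟩
      · rw [mem_bd, S.invol]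
        exact ⟨fun h => (mem_bd.1 ha).1 h.symm, hZp a ha,
          (mem_sdiff.1 (mem_sdiff.1 (mem_bd.1 ha).2.1).1).2⟩
    have hcard := card_le_card hsub
    rw [card_image_of_injective _ S.g_injective, card_union_of_disjoint hdisj] at hcard
    omega

/-- bookkeeping for the removal of `M` -/
theorem N2_remove_set (S : Obj I) {M : Finset I} (hM : M ⊆ S.F) (k : ℕ) :
    (S.keep (S.F \ M)).N2 k + M.card + (S.vis.filter (fun a => a.1 ∈ M)).card
      + 2 * (S.E.filter (fun a => a.1 ∈ M)).card = S.N2 k + (S.bd M).card := by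
  have h2 := card_vis_keep S (sdiff_subset : S.F \ M ⊆ S.F)
  rw [card_bd_sdiff S hM] at h2
  have h3 : (S.vis.filter (fun a => a.1 ∈ M)).card
      + (S.vis.filter (fun a => a.1 ∈ S.F \ M)).card = S.vis.card := by
    rw [← Finset.card_filter_add_card_filter_not (s := S.vis) (fun a => a.1 ∈ M)]
    congr 2
    refine filter_congr fun a ha => ?_
    simp [(mem_vis.1 ha).1]
  have h4 : (S.E.filter (fun a => a.1 ∈ M)).card
      + (S.E.filter (fun a => a.1 ∈ S.F \ M)).card = S.E.card := by
    rw [← Finset.card_filter_add_card_filter_not (s := S.E) (fun a => a.1 ∈ M)]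
    congr 2
    refine filter_congr fun a ha => ?_
    simp [S.earF a ha]
  have h5 : M.card + (S.F \ M).card = S.F.card := by
    rw [card_sdiff_of_subset hM]; have := card_le_card hM; omega
  simp only [N2, keep_F S sdiff_subset, keep_E]
  omega

/-- fewer glued sides -/
theorem card_glued_remove_lt (S : Obj I) {M : Finset I} {a : Sd I} (ha : S.g a ≠ a)
    (haM : a.1 ∈ M) : (S.keep (S.F \ M)).glued.card < S.glued.card := by
  apply card_lt_card
  rw [ssubset_iff_of_subset]
  · refine ⟨a, mem_glued.2 ha, ?_⟩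
    rw [mem_glued, not_not, keep_g, if_neg]
    rintro ⟨h1, -⟩
    exact (mem_sdiff.1 h1).2 haM
  · intro b hb
    rw [mem_glued] at hb ⊢
    exact ((keep_le S _).glued hb).2

private theorem bd_single_nonempty {S : Obj I} (hc : S.Conn) (h2 : 2 ≤ S.F.card) {t : I}
    (ht : t ∈ S.F) : (S.bd {t}).Nonempty := by
  apply hc.2 {t} (singleton_subset_iff.2 ht) (singleton_nonempty t)
  intro h
  have := congrArg Finset.card h
  rw [card_singleton] at this
  omega

/-- in a bridgeless connected object with at least two triangles every triangle has at least two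
glued sides: at most one side is unglued -/
theorem Bridgeless.two_glued {S : Obj I} (hc : S.Conn) (hb : S.Bridgeless)
    (h2 : 2 ≤ S.F.card) {a : Sd I} (ha : a.1 ∈ S.F) (hu : S.g a = a) :
    S.g (rot a) ≠ rot a ∧ S.g (unrot a) ≠ unrot a := by
  have hcard := hb.two_le (singleton_subset_iff.2 ha) (bd_single_nonempty hc h2 ha)
  have hmem : ∀ b ∈ S.bd {a.1}, b = rot a ∨ b = unrot a := by
    intro b hb'
    obtain ⟨h3, h4, -⟩ := mem_bd.1 hb'
    rcases eq_of_fst_eq (mem_singleton.1 h4) with h | h | h
    · rw [h] at h3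
      exact absurd hu h3
    · exact Or.inl h
    · exact Or.inr h
  constructor
  · intro h
    have hs : S.bd {a.1} ⊆ {unrot a} := by
      intro b hb'
      rcases hmem b hb' with h5 | h5
      · rw [h5] at hb'
        exact absurd h (mem_bd.1 hb').1
      · exact mem_singleton.2 h5
    have := card_le_card hs
    rw [card_singleton] at this
    omega
  · intro h
    have hs : S.bd {a.1} ⊆ {rot a} := by
      intro b hb'
      rcases hmem b hb' with h5 | h5
      · exact mem_singleton.2 h5
      · rw [h5] at hb'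
        exact absurd h (mem_bd.1 hb').1
    have := card_le_card hs
    rw [card_singleton] at this
    omega

/-- in a bridgeless object with two triangles nothing is noncore -/
theorem Bridgeless.not_noncore {S : Obj I} (hc : S.Conn) (hb : S.Bridgeless)
    (h2 : 2 ≤ S.F.card) (t : I) : ¬ S.Noncore t := by
  rintro ⟨ht, h⟩
  obtain ⟨b, hb'⟩ := bd_single_nonempty hc h2 ht
  obtain ⟨h3, h4, -⟩ := mem_bd.1 hb'
  have h5 : b = (t, b.2) := by
    rw [← mem_singleton.1 h4]
  rw [h5] at h3
  exact hb _ (h b.2 h3)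

end Obj

end AG
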