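import Pool.Agent.AG.Red.Basic

/-!
# Project AG, block RED: the case of one triangle, reduction to inequivalent forced corners
-/

namespace AG

open Finset

variable {I : Type} [DecidableEq I]

namespace Obj

private theorem single_fin : ∀ w e : Finset (Fin 3), ∃ c : Finset (Fin 3), w ⊆ c ∧
    (∀ i ∈ e, i ∈ c ∨ i + 1 ∈ c) ∧ c.Nonempty ∧ 6 * c.card ≤ 6 + 4 * w.card + 2 * e.card := by
  decide

private theorem single_card {t : I} {W : Finset (Sd I)} (hW : ∀ a ∈ W, a.1 = t) :
    W.card = ((univ : Finset (Fin 3)).filter (fun i => (t, i) ∈ W)).card := by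
  have h1 : W = ((univ : Finset (Fin 3)).filter (fun i => (t, i) ∈ W)).image (fun i => (t, i)) := by
    ext a
    simp only [mem_image, mem_filter, mem_univ, true_and]
    constructor
    · intro ha
      have h2 := hW a ha
      refine ⟨a.2, ?_, ?_⟩
      · rw [← h2]; exact ha
      · rw [← h2]
    · rintro ⟨i, hi, rfl⟩
      exact hi
  conv_lhs => rw [h1]
  exact card_image_of_injective _ (fun i j h => (Prod.ext_iff.1 h).2)

/-- one triangle -/
theorem P_single {S : Obj I} {pt : Sd I → Pt} {R : Set Pt} (hg : S.Geo pt)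
    (hR : ∀ t ∈ S.F, tri pt t ⊆ R) {t : I} (hF : S.F = {t}) {W : Finset (Sd I)}
    (hW : W ⊆ S.sides) : P S pt R W := by
  have hWt : ∀ a ∈ W, a.1 = t := fun a ha => by
    have h1 := mem_sides.1 (hW ha)
    rw [hF] at h1
    exact mem_singleton.1 h1
  have hEt : ∀ a ∈ S.E, a.1 = t := fun a ha => by
    have h1 := S.earF a ha
    rw [hF] at h1
    exact mem_singleton.1 h1
  have hun : ∀ a, S.g a = a := by
    intro a
    by_contra h
    have h1 := S.memF a h
    have h2 := g_memF h
    rw [hF, mem_singleton] at h1 h2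
    exact S.ne a h (h2.trans h1.symm)
  have hvis : S.vis.card = 3 := by
    have h1 : S.vis = S.sides := by
      ext a
      rw [mem_vis, mem_sides]
      exact ⟨fun h => h.1, fun h => ⟨h, hun a⟩⟩
    rw [h1, card_sides, hF, card_singleton]
  obtain ⟨c, hc1, hc2, ⟨i0, hi0⟩, hc3⟩ := single_fin
    ((univ : Finset (Fin 3)).filter (fun i => (t, i) ∈ W))
    ((univ : Finset (Fin 3)).filter (fun i => (t, i) ∈ S.E))
  rw [← single_card hWt, ← single_card hEt] at hc3
  have hmem : ∀ i, i ∈ c → (t, i) ∈ c.image (fun i => ((t, i) : Sd I)) := fun i hi =>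
    mem_image.2 ⟨i, hi, rfl⟩
  refine ⟨c.image (fun i => (t, i)), ⟨?_, ?_, ?_, ?_, ?_⟩, ?_⟩
  · intro a ha
    obtain ⟨i, _, rfl⟩ := mem_image.1 ha
    rw [mem_sides, hF]
    exact mem_singleton_self t
  · rintro ⟨t', i⟩ ha
    have h1 : t' = t := hWt _ ha
    subst h1
    exact ⟨_, hmem i (hc1 (mem_filter.2 ⟨mem_univ _, ha⟩)), Eqv.refl _ _⟩
  · rintro ⟨t', i⟩ ha
    have h1 : t' = t := hEt _ ha
    subst h1
    rcases hc2 i (mem_filter.2 ⟨mem_univ _, ha⟩) with h | h
    · exact Or.inl ⟨_, hmem i h, Eqv.refl _ _⟩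
    · exact Or.inr ⟨_, hmem _ h, Eqv.refl _ _⟩
  · intro t' ht'
    have h1 := ht'.1
    rw [hF, mem_singleton] at h1
    subst h1
    exact ⟨i0, _, hmem i0 hi0, Eqv.refl _ _⟩
  · intro t' ht'
    have h1 := ht'
    rw [hF, mem_singleton] at h1
    subst h1
    exact Geo.cov_of_hit hg (a := (t', i0)) ht' (hR _ ht') ⟨_, hmem i0 hi0, Eqv.refl _ _⟩
  · rw [card_image_of_injective _ (fun i j h => (Prod.ext_iff.1 h).2)]
    unfold N2
    rw [hF, hvis, card_singleton]
    omega

/-- pairwise inequivalent corners -/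
def Reduced (S : Obj I) (W : Finset (Sd I)) : Prop :=
  ∀ w ∈ W, ∀ w' ∈ W, S.Eqv w w' → w = w'

/-- it is enough to prove P for reduced sets of forced corners -/
theorem P_of_reduced {S : Obj I} {pt : Sd I → Pt} {R : Set Pt}
    (h : ∀ W ⊆ S.sides, S.Reduced W → P S pt R W) {W : Finset (Sd I)} (hW : W ⊆ S.sides) :
    P S pt R W := by
  induction hn : W.card using Nat.strong_induction_on generalizing W with
  | _ n ih =>
    by_cases hr : S.Reduced W
    · exact h W hW hr
    · unfold Reduced at hr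
      push Not at hr
      obtain ⟨w, hw, w', hw', he, hne⟩ := hr
      obtain ⟨C, hs, hc⟩ := ih (W.erase w).card (by rw [← hn]; exact card_erase_lt_of_mem hw)
        ((erase_subset _ _).trans hW) rfl
      refine ⟨C, ⟨hs.sub, fun v hv => ?_, hs.ear, hs.dom, hs.cov⟩, hc.trans ?_⟩
      · by_cases hvw : v = w
        · subst hvw
          exact (hs.forced w' (mem_erase.2 ⟨Ne.symm hne, hw'⟩)).eqv he.symm
        · exact hs.forced v (mem_erase.2 ⟨hvw, hv⟩)
      · have h1 : (W.erase w).card ≤ W.card := card_le_card (erase_subset _ _)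
        unfold N2
        omega

end Obj

end AG
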